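import Mathlib
import Pool.Agent.R538.MS.Build

/-!
`k`-independent sets: definitions, graphs given by labels.
-/

set_option autoImplicit false

namespace Pool.Agent.R538.KI

open Finset Pool.Agent.R550.GB Pool.Agent.R538.MS

/-- A regular `k`-independent set: every vertex of `S` has at most `k` neighbours in `S`, and all
vertices of `S` have the same degree in `G`. -/
def IsRegKIndep {V : Type} (G : SimpleGraph V) (k : ℕ) (S : Finset V) : Prop :=
  (∀ v ∈ S, {u | u ∈ S ∧ G.Adj v u}.ncard ≤ k) ∧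
    ∀ u ∈ S, ∀ v ∈ S, (G.neighborSet u).ncard = (G.neighborSet v).ncard

/-- The maximum regular `k`-independent set decision problem: does the graph `I.1` have a regular
`k`-independent set with at least `I.2` vertices? -/
def RegKMIS (k : ℕ) (I : List (List ℕ) × ℕ) : Prop :=
  ∃ S : Finset (Fin I.1.length), IsRegKIndep (graph I.1) k S ∧ I.2 ≤ S.card

/-- all vertices have degree `r` -/
def IsReg {V : Type} (G : SimpleGraph V) (r : ℕ) : Prop := ∀ v, (G.neighborSet v).ncard = r

variable {β : Type} [DecidableEq β]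

/-- the number of the neighbours of `x` in `A` -/
def nb (T : β → β → Bool) (A : Finset β) (x : β) : ℕ := (A.filter fun y => T x y = true).card

/-- `k`-independent sets of labels -/
def KInd (T : β → β → Bool) (k : ℕ) (A : Finset β) : Prop := ∀ x ∈ A, nb T A x ≤ k

/-- there is a `k`-independent set with at least `m` elements -/
def Al (S : Finset β) (T : β → β → Bool) (k m : ℕ) : Prop := ∃ A ⊆ S, KInd T k A ∧ m ≤ A.card

theorem nb_mono {T : β → β → Bool} {A B : Finset β} (h : A ⊆ B) (x : β) : nb T A x ≤ nb T B x :=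
  card_le_card (filter_subset_filter _ h)

section Transfer

variable {vs : List β} (hvs : vs.Nodup) {T : β → β → Bool} (hsym : ∀ x y, T x y = T y x)
  (hirr : ∀ x ∈ vs, T x x = false)

include hvs hsym hirr

theorem exists_lab : ∃ lab : Fin (mkA vs T).length → β, Function.Injective lab ∧
    (∀ v, lab v ∈ vs) ∧ (∀ x ∈ vs, ∃ v, lab v = x) ∧
    ∀ u v, (graph (mkA vs T)).Adj u v ↔ T (lab u) (lab v) = true := by
  obtain ⟨lab, h1, h2, h3, h4⟩ := exists_labA hvs T
  refine ⟨lab, h1, h2, h3, fun u v => ?_⟩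
  rw [h4, hsym (lab v) (lab u), or_self]
  refine ⟨fun h => h.2, fun h => ⟨?_, h⟩⟩
  rintro rfl
  rw [hirr _ (h2 u)] at h
  exact absurd h (by simp)

theorem isReg_of {r : ℕ} (hr : ∀ x ∈ vs, nb T vs.toFinset x = r) :
    IsReg (graph (mkA vs T)) r := by
  obtain ⟨lab, h1, h2, h3, h4⟩ := exists_lab hvs hsym hirr
  intro v
  rw [← hr (lab v) (h2 v), nb, ← Set.ncard_image_of_injective _ h1, ← Set.ncard_coe_finset]
  congr 1
  ext x
  simp only [Set.mem_image, SimpleGraph.mem_neighborSet, coe_filter, List.mem_toFinset,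
    Set.mem_ofPred_eq]
  constructor
  · rintro ⟨u, hu, rfl⟩
    exact ⟨h2 u, (h4 v u).1 hu⟩
  · rintro ⟨hx, hT⟩
    obtain ⟨u, rfl⟩ := h3 x hx
    exact ⟨u, (h4 v u).2 hT, rfl⟩

theorem regKMIS_iff {r : ℕ} (hr : ∀ x ∈ vs, nb T vs.toFinset x = r) (k p : ℕ) :
    RegKMIS k (mkA vs T, p) ↔ Al vs.toFinset T k p := by
  classical
  have hreg := isReg_of hvs hsym hirr hr
  obtain ⟨lab, h1, h2, h3, h4⟩ := exists_lab hvs hsym hirr
  have key : ∀ S : Finset (Fin (mkA vs T).length), ∀ v,
      {u | u ∈ S ∧ (graph (mkA vs T)).Adj v u}.ncard = nb T (S.image lab) (lab v) := by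
    intro S v
    rw [nb, ← Set.ncard_image_of_injective _ h1, ← Set.ncard_coe_finset]
    congr 1
    ext x
    simp only [Set.mem_image, Set.mem_ofPred_eq, coe_filter, mem_image]
    constructor
    · rintro ⟨u, ⟨hu, huv⟩, rfl⟩
      exact ⟨⟨u, hu, rfl⟩, (h4 v u).1 huv⟩
    · rintro ⟨⟨u, hu, rfl⟩, hT⟩
      exact ⟨u, ⟨hu, (h4 v u).2 hT⟩, rfl⟩
  constructor
  · rintro ⟨S, ⟨hS, -⟩, hp⟩
    refine ⟨S.image lab, ?_, ?_, ?_⟩
    · intro x hx
      obtain ⟨u, -, rfl⟩ := mem_image.1 hx
      exact List.mem_toFinset.2 (h2 u)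
    · intro x hx
      obtain ⟨u, hu, rfl⟩ := mem_image.1 hx
      rw [← key]
      exact hS u hu
    · rw [card_image_of_injective _ h1]
      exact hp
  · rintro ⟨A, hA, hk, hp⟩
    have hAi : (univ.filter fun v => lab v ∈ A).image lab = A := by
      ext x
      simp only [mem_image, mem_filter, mem_univ, true_and]
      constructor
      · rintro ⟨u, hu, rfl⟩
        exact hu
      · intro hx
        obtain ⟨u, rfl⟩ := h3 x (List.mem_toFinset.1 (hA hx))
        exact ⟨u, hx, rfl⟩
    refine ⟨univ.filter fun v => lab v ∈ A, ⟨?_, ?_⟩, ?_⟩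
    · intro v hv
      rw [key, hAi]
      exact hk _ (mem_filter.1 hv).2
    · intro u _ v _
      rw [hreg u, hreg v]
    · rw [← card_image_of_injective _ h1, hAi]
      exact hp

end Transfer

end Pool.Agent.R538.KI
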