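import Mathlib
import Pool.Agent.R538.KI.Base

/-!
From independent sets to `1`-independent sets in graphs of maximum degree three.
-/

set_option autoImplicit false

namespace Pool.Agent.R538.KI

open Finset

/-- consecutive on the cycle of length `3 n` -/
def cyc (n t t' : ℕ) : Bool :=
  decide (t < 3 * n) && (decide (t' < 3 * n) && (decide (t' = t + 1) || (decide (t = t' + 1) ||
    ((decide (t = 0) && decide (t' + 1 = 3 * n)) || (decide (t' = 0) && decide (t + 1 = 3 * n))))))

/-- vertices: for every vertex `v` a cycle of length `3 n` and the vertex `3 n` -/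
def cS (n : ℕ) : Finset (ℕ × ℕ) := range n ×ˢ range (3 * n + 1)

/-- adjacency inside the gadget of a vertex -/
def gadT (n t t' : ℕ) : Bool :=
  cyc n t t' || ((decide (t = 0) && decide (t' = 3 * n)) || (decide (t = 3 * n) && decide (t' = 0)))

/-- adjacency -/
def cT (n : ℕ) (E : ℕ → ℕ → Bool) (x y : ℕ × ℕ) : Bool :=
  (decide (x.1 = y.1) && gadT n x.2 y.2) ||
    (!decide (x.1 = y.1) && (E x.1 y.1 && (decide (x.2 = 3 * y.1 + 2) &&
      decide (y.2 = 3 * x.1 + 2))))

theorem cyc_iff {n t t' : ℕ} : cyc n t t' = true ↔ t < 3 * n ∧ t' < 3 * n ∧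
    (t' = t + 1 ∨ t = t' + 1 ∨ (t = 0 ∧ t' + 1 = 3 * n) ∨ (t' = 0 ∧ t + 1 = 3 * n)) := by
  simp [cyc]

theorem gadT_iff {n t t' : ℕ} : gadT n t t' = true ↔
    (t < 3 * n ∧ t' < 3 * n ∧
      (t' = t + 1 ∨ t = t' + 1 ∨ (t = 0 ∧ t' + 1 = 3 * n) ∨ (t' = 0 ∧ t + 1 = 3 * n))) ∨
    (t = 0 ∧ t' = 3 * n) ∨ (t = 3 * n ∧ t' = 0) := by
  simp [gadT, cyc_iff]

theorem cT_iff {n : ℕ} {E : ℕ → ℕ → Bool} {v t v' t' : ℕ} : cT n E (v, t) (v', t') = true ↔
    (v = v' ∧ gadT n t t' = true) ∨
      (v ≠ v' ∧ E v v' = true ∧ t = 3 * v' + 2 ∧ t' = 3 * v + 2) := by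
  simp [cT]

variable {n : ℕ} {E : ℕ → ℕ → Bool}

theorem cT_symm (hE : ∀ v w, E v w = E w v) (x y : ℕ × ℕ) : cT n E x y = cT n E y x := by
  obtain ⟨v, t⟩ := x
  obtain ⟨v', t'⟩ := y
  rw [Bool.eq_iff_iff, cT_iff, cT_iff, gadT_iff, gadT_iff, hE v' v]
  constructor
  · rintro (⟨h1, h2⟩ | ⟨h1, h2, h3, h4⟩)
    · left; omega
    · right; exact ⟨h1.symm, h2, h4, h3⟩
  · rintro (⟨h1, h2⟩ | ⟨h1, h2, h3, h4⟩)
    · left; omega
    · right; exact ⟨h1.symm, h2, h4, h3⟩

theorem cT_irr (hn : 1 ≤ n) (x : ℕ × ℕ) : cT n E x x = false := by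
  obtain ⟨v, t⟩ := x
  rw [← Bool.not_eq_true, cT_iff, gadT_iff]
  rintro (⟨-, h⟩ | ⟨h, -⟩)
  · omega
  · exact h rfl

/-- the degrees -/
def dgA (n : ℕ) (E : ℕ → ℕ → Bool) (x : ℕ × ℕ) : ℕ :=
  if x.2 = 3 * n then 1 else if x.2 = 0 then 3
  else if x.2 % 3 = 2 ∧ x.2 / 3 ≠ x.1 ∧ E x.1 (x.2 / 3) = true then 3 else 2

theorem dgA_le (x : ℕ × ℕ) : dgA n E x ≤ 3 := by
  unfold dgA
  split_ifs <;> omega

theorem nb_cT (hn : 1 ≤ n) (x : ℕ × ℕ) (hx : x ∈ cS n) : nb (cT n E) (cS n) x = dgA n E x := by
  obtain ⟨v, t⟩ := x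
  rw [cS, mem_product, mem_range, mem_range] at hx
  obtain ⟨hv, ht⟩ := hx
  simp only at hv ht
  unfold dgA
  simp only
  split_ifs with h1 h2 h3
  · have : (cS n).filter (fun y => cT n E (v, t) y = true) = {(v, 0)} := by
      ext ⟨v', t'⟩
      rw [mem_filter, cS, mem_product, mem_range, mem_range, cT_iff, gadT_iff, mem_singleton,
        Prod.mk.injEq]
      constructor
      · rintro ⟨h4, h5 | h5⟩
        · omega
        · omega
      · rintro ⟨rfl, rfl⟩
        exact ⟨⟨hv, by simp only; omega⟩, Or.inl ⟨rfl, by omega⟩⟩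
    rw [nb, this, card_singleton]
  · have : (cS n).filter (fun y => cT n E (v, t) y = true) = {(v, 1), (v, 3 * n - 1), (v, 3 * n)} := by
      ext ⟨v', t'⟩
      rw [mem_filter, cS, mem_product, mem_range, mem_range, cT_iff, gadT_iff, mem_insert,
        mem_insert, mem_singleton, Prod.mk.injEq, Prod.mk.injEq, Prod.mk.injEq]
      constructor
      · rintro ⟨h4, h5 | h5⟩
        · omega
        · omega
      · intro h
        have h4 : v' = v := by omega
        subst h4
        exact ⟨⟨hv, by simp only; omega⟩, Or.inl ⟨rfl, by omega⟩⟩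
    rw [nb, this, card_eq_three]
    exact ⟨_, _, _, by simp; omega, by simp; omega, by simp; omega, rfl⟩
  · obtain ⟨h3, h4, h5⟩ := h3
    have : (cS n).filter (fun y => cT n E (v, t) y = true) =
        {(v, if t + 1 = 3 * n then 0 else t + 1), (v, t - 1), (t / 3, 3 * v + 2)} := by
      ext ⟨v', t'⟩
      rw [mem_filter, cS, mem_product, mem_range, mem_range, cT_iff, gadT_iff, mem_insert,
        mem_insert, mem_singleton, Prod.mk.injEq, Prod.mk.injEq, Prod.mk.injEq]
      constructor
      · rintro ⟨h6, h7 | h7⟩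
        · split_ifs <;> omega
        · right; right; omega
      · rintro (h | h | h)
        · obtain ⟨rfl, h⟩ := h
          refine ⟨⟨hv, ?_⟩, Or.inl ⟨rfl, ?_⟩⟩
          · simp only; split_ifs at h <;> omega
          · split_ifs at h <;> omega
        · obtain ⟨rfl, h⟩ := h
          exact ⟨⟨hv, by simp only; omega⟩, Or.inl ⟨rfl, by omega⟩⟩
        · obtain ⟨rfl, rfl⟩ := h
          exact ⟨⟨by simp only; omega, by simp only; omega⟩, Or.inr ⟨h4.symm, h5, by omega, rfl⟩⟩
    rw [nb, this, card_eq_three]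
    refine ⟨_, _, _, ?_, ?_, ?_, rfl⟩
    · rw [Ne, Prod.mk.injEq]; split_ifs <;> omega
    · rw [Ne, Prod.mk.injEq]; intro h; exact h4 h.1.symm
    · rw [Ne, Prod.mk.injEq]; intro h; exact h4 h.1.symm
  · have : (cS n).filter (fun y => cT n E (v, t) y = true) =
        {(v, if t + 1 = 3 * n then 0 else t + 1), (v, t - 1)} := by
      ext ⟨v', t'⟩
      rw [mem_filter, cS, mem_product, mem_range, mem_range, cT_iff, gadT_iff, mem_insert,
        mem_singleton, Prod.mk.injEq, Prod.mk.injEq]
      constructor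
      · rintro ⟨h6, h7 | ⟨h7, h8, h9, h10⟩⟩
        · split_ifs <;> omega
        · exfalso
          apply h3
          have : t / 3 = v' := by omega
          rw [this]
          exact ⟨by omega, h7.symm, h8⟩
      · rintro (h | h)
        · obtain ⟨rfl, h⟩ := h
          refine ⟨⟨hv, ?_⟩, Or.inl ⟨rfl, ?_⟩⟩
          · simp only; split_ifs at h <;> omega
          · split_ifs at h <;> omega
        · obtain ⟨rfl, h⟩ := h
          exact ⟨⟨hv, by simp only; omega⟩, Or.inl ⟨rfl, by omega⟩⟩
    rw [nb, this, card_pair]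
    rw [Ne, Prod.mk.injEq]; split_ifs <;> omega

/-! ### Counting -/

theorem sum_windows (f : ℕ → ℕ) (n : ℕ) :
    ∑ t ∈ range (3 * n), f t = ∑ i ∈ range n, (f (3 * i) + f (3 * i + 1) + f (3 * i + 2)) := by
  induction n with
  | zero => rfl
  | succ n ih =>
    rw [sum_range_succ, ← ih, show 3 * (n + 1) = 3 * n + 1 + 1 + 1 by ring, sum_range_succ,
      sum_range_succ, sum_range_succ]
    ring

theorem card_fiber {A : Finset (ℕ × ℕ)} {N M : ℕ} (hA : A ⊆ range N ×ˢ range M) :
    A.card = ∑ v ∈ range N, ∑ t ∈ range M, if (v, t) ∈ A then 1 else 0 := by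
  rw [← sum_product' (f := fun v t => if (v, t) ∈ A then 1 else 0), ← card_filter,
    filter_mem_eq_inter, inter_eq_right.2 hA]

/-- independent sets -/
def Ind (n : ℕ) (E : ℕ → ℕ → Bool) (X : Finset ℕ) : Prop :=
  X ⊆ range n ∧ ∀ v ∈ X, ∀ w ∈ X, v ≠ w → E v w = false

theorem cycA_le (hn : 1 ≤ n) {X : Finset ℕ} (hX : Ind n E X) :
    Al (cS n) (cT n E) 1 (2 * n * n + X.card) := by
  classical
  set A : Finset (ℕ × ℕ) := (cS n).filter fun p =>
    if p.2 = 3 * n then p.1 ∈ X else if p.1 ∈ X then p.2 % 3 ≠ 0 else p.2 % 3 ≠ 2 with hAdef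
  have hmem : ∀ v t, (v, t) ∈ A ↔ (v < n ∧ t < 3 * n + 1) ∧
      (if t = 3 * n then v ∈ X else if v ∈ X then t % 3 ≠ 0 else t % 3 ≠ 2) := by
    intro v t
    rw [hAdef, mem_filter, cS, mem_product, mem_range, mem_range]
  refine ⟨A, filter_subset _ _, ?_, ?_⟩
  · rintro ⟨v, t⟩ hvt
    rw [hmem] at hvt
    have key : ∃ p, (A.filter fun y => cT n E (v, t) y = true) ⊆ {p} := by
      by_cases hv : v ∈ X
      · by_cases ht : t = 3 * n
        · refine ⟨(v, 0), ?_⟩
          rintro ⟨v', t'⟩ h
          rw [mem_filter, hmem, cT_iff, gadT_iff] at h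
          rw [mem_singleton, Prod.mk.injEq]
          omega
        · rw [if_neg ht, if_pos hv] at hvt
          by_cases h1 : t % 3 = 1
          · refine ⟨(v, t + 1), ?_⟩
            rintro ⟨v', t'⟩ h
            rw [mem_filter, hmem, cT_iff, gadT_iff] at h
            rw [mem_singleton, Prod.mk.injEq]
            obtain ⟨⟨h2, h3⟩, h4 | h4⟩ := h
            · obtain ⟨rfl, h4⟩ := h4
              rw [if_pos hv] at h3
              split_ifs at h3 <;> omega
            · omega
          · refine ⟨(v, t - 1), ?_⟩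
            rintro ⟨v', t'⟩ h
            rw [mem_filter, hmem, cT_iff, gadT_iff] at h
            rw [mem_singleton, Prod.mk.injEq]
            obtain ⟨⟨h2, h3⟩, h4 | ⟨h4, h5, h6, h7⟩⟩ := h
            · obtain ⟨rfl, h4⟩ := h4
              rw [if_pos hv] at h3
              split_ifs at h3 <;> omega
            · exfalso
              have h8 : v' ∉ X := by
                intro h8
                rw [hX.2 v hv v' h8 h4] at h5
                exact absurd h5 (by simp)
              rw [if_neg (by omega), if_neg h8] at h3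
              omega
      · by_cases ht : t = 3 * n
        · rw [if_pos ht] at hvt
          exact absurd hvt.2 hv
        · rw [if_neg ht, if_neg hv] at hvt
          by_cases h1 : t % 3 = 0
          · refine ⟨(v, t + 1), ?_⟩
            rintro ⟨v', t'⟩ h
            rw [mem_filter, hmem, cT_iff, gadT_iff] at h
            rw [mem_singleton, Prod.mk.injEq]
            obtain ⟨⟨h2, h3⟩, h4 | h4⟩ := h
            · obtain ⟨rfl, h4⟩ := h4
              rw [if_neg hv] at h3
              split_ifs at h3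
              · exact absurd h3 hv
              · omega
            · omega
          · refine ⟨(v, t - 1), ?_⟩
            rintro ⟨v', t'⟩ h
            rw [mem_filter, hmem, cT_iff, gadT_iff] at h
            rw [mem_singleton, Prod.mk.injEq]
            obtain ⟨⟨h2, h3⟩, h4 | h4⟩ := h
            · obtain ⟨rfl, h4⟩ := h4
              rw [if_neg hv] at h3
              split_ifs at h3
              · exact absurd h3 hv
              · omega
            · omega
    obtain ⟨p, hp⟩ := key
    have := card_le_card hp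
    rwa [card_singleton] at this
  · rw [card_fiber (A := A) (N := n) (M := 3 * n + 1) (filter_subset _ _)]
    have h1 : ∀ v ∈ range n, (∑ t ∈ range (3 * n + 1), if (v, t) ∈ A then 1 else 0) =
        2 * n + if v ∈ X then 1 else 0 := by
      intro v hv
      rw [mem_range] at hv
      rw [sum_range_succ, sum_windows]
      have h2 : ∀ i ∈ range n, ((if (v, 3 * i) ∈ A then 1 else 0) +
          (if (v, 3 * i + 1) ∈ A then 1 else 0) + (if (v, 3 * i + 2) ∈ A then 1 else 0)) = 2 := by
        intro i hi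
        rw [mem_range] at hi
        by_cases hvX : v ∈ X
        · have e0 : (v, 3 * i) ∉ A := by
            rw [hmem, if_neg (by omega), if_pos hvX]; omega
          have e1 : (v, 3 * i + 1) ∈ A := by
            rw [hmem, if_neg (by omega), if_pos hvX]; omega
          have e2 : (v, 3 * i + 2) ∈ A := by
            rw [hmem, if_neg (by omega), if_pos hvX]; omega
          rw [if_neg e0, if_pos e1, if_pos e2]
        · have e0 : (v, 3 * i) ∈ A := by
            rw [hmem, if_neg (by omega), if_neg hvX]; omega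
          have e1 : (v, 3 * i + 1) ∈ A := by
            rw [hmem, if_neg (by omega), if_neg hvX]; omega
          have e2 : (v, 3 * i + 2) ∉ A := by
            rw [hmem, if_neg (by omega), if_neg hvX]; omega
          rw [if_pos e0, if_pos e1, if_neg e2]
      rw [sum_congr rfl h2, sum_const, card_range, smul_eq_mul, mul_comm]
      congr 1
      by_cases hvX : v ∈ X
      · rw [if_pos hvX, if_pos]
        rw [hmem, if_pos rfl]
        exact ⟨⟨hv, by omega⟩, hvX⟩
      · rw [if_neg hvX, if_neg]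
        rw [hmem, if_pos rfl]
        exact fun h => hvX h.2
    rw [sum_congr rfl h1, sum_add_distrib, sum_const, card_range, smul_eq_mul, ← card_filter,
      filter_mem_eq_inter, inter_eq_right.2 hX.1]
    exact le_of_eq (by ring)

section

variable {A : Finset (ℕ × ℕ)} (hA : A ⊆ cS n) (hK : KInd (cT n E) 1 A)

include hK in
theorem two_nbrs {x y z : ℕ × ℕ} (hx : x ∈ A) (hy : y ∈ A) (hz : z ∈ A) (hyz : y ≠ z)
    (h1 : cT n E x y = true) (h2 : cT n E x z = true) : False := by
  have h3 := hK x hx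
  have h4 : ({y, z} : Finset (ℕ × ℕ)) ⊆ A.filter fun u => cT n E x u = true := by
    intro u hu
    rw [mem_insert, mem_singleton] at hu
    rw [mem_filter]
    rcases hu with rfl | rfl
    · exact ⟨hy, h1⟩
    · exact ⟨hz, h2⟩
  have := card_le_card h4
  rw [card_pair hyz] at this
  rw [nb] at h3
  omega

include hK in
theorem no3 {v s t u : ℕ} (hs : (v, s) ∈ A) (ht : (v, t) ∈ A) (hu : (v, u) ∈ A) (hsu : s ≠ u)
    (h1 : gadT n t s = true) (h2 : gadT n t u = true) : False :=
  two_nbrs hK ht hs hu (by simpa using hsu) (cT_iff.2 (Or.inl ⟨rfl, h1⟩))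
    (cT_iff.2 (Or.inl ⟨rfl, h2⟩))

include hK in
/-- the pattern of a full gadget -/
theorem full {v : ℕ} (hn : 1 ≤ n)
    (hsum : 2 * n + 1 ≤ ∑ t ∈ range (3 * n + 1), if (v, t) ∈ A then 1 else 0) :
    ∀ w < n, (v, 3 * w + 1) ∈ A ∧ (v, 3 * w + 2) ∈ A := by
  have hW : ∀ i < n, ((if (v, 3 * i) ∈ A then 1 else 0) +
      (if (v, 3 * i + 1) ∈ A then 1 else 0) + (if (v, 3 * i + 2) ∈ A then 1 else 0)) ≤ 2 := by
    intro i hi
    by_cases h0 : (v, 3 * i) ∈ A
    · by_cases h1 : (v, 3 * i + 1) ∈ A
      · by_cases h2 : (v, 3 * i + 2) ∈ A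
        · exact (no3 hK h0 h1 h2 (by omega) (gadT_iff.2 (by omega)) (gadT_iff.2 (by omega))).elim
        · rw [if_pos h0, if_pos h1, if_neg h2]
      · rw [if_neg h1]; split_ifs <;> omega
    · rw [if_neg h0]; split_ifs <;> omega
  rw [sum_range_succ, sum_windows] at hsum
  have hr : (v, 3 * n) ∈ A := by
    by_contra hcon
    rw [if_neg hcon] at hsum
    have := sum_le_sum (s := range n) (fun i hi => hW i (mem_range.1 hi))
    rw [sum_const, card_range, smul_eq_mul] at this
    omega
  have hW2 : ∀ i < n, ((if (v, 3 * i) ∈ A then 1 else 0) +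
      (if (v, 3 * i + 1) ∈ A then 1 else 0) + (if (v, 3 * i + 2) ∈ A then 1 else 0)) = 2 := by
    intro i hi
    refine le_antisymm (hW i hi) ?_
    by_contra hcon
    push Not at hcon
    have := sum_lt_sum (s := range n) (fun i hi => hW i (mem_range.1 hi))
      ⟨i, mem_range.2 hi, hcon⟩
    rw [sum_const, card_range, smul_eq_mul] at this
    rw [if_pos hr] at hsum
    omega
  -- exactly one vertex of every window is missing
  have hX : ∀ i < n, ((v, 3 * i) ∉ A → (v, 3 * i + 1) ∈ A ∧ (v, 3 * i + 2) ∈ A) ∧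
      ((v, 3 * i + 1) ∉ A → (v, 3 * i) ∈ A ∧ (v, 3 * i + 2) ∈ A) ∧
      ((v, 3 * i + 2) ∉ A → (v, 3 * i) ∈ A ∧ (v, 3 * i + 1) ∈ A) := by
    intro i hi
    have := hW2 i hi
    by_cases h0 : (v, 3 * i) ∈ A <;> by_cases h1 : (v, 3 * i + 1) ∈ A <;>
      by_cases h2 : (v, 3 * i + 2) ∈ A <;> simp_all
  have h0 : (v, 0) ∉ A := by
    intro h0
    have h1 : (v, 1) ∉ A := fun h1 => no3 hK h1 h0 hr (by omega) (gadT_iff.2 (by omega))
      (gadT_iff.2 (by omega))
    have h2 : (v, 3 * n - 1) ∉ A := fun h2 => no3 hK h2 h0 hr (by omega) (gadT_iff.2 (by omega))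
      (gadT_iff.2 (by omega))
    have h3 : ∀ i, i < n → (v, 3 * i + 2) ∈ A := by
      intro i
      induction i with
      | zero => exact fun hi => ((hX 0 hi).2.1 h1).2
      | succ i ih =>
        intro hi
        by_contra hcon
        have h4 := (hX (i + 1) hi).2.2 hcon
        exact no3 hK (ih (by omega)) h4.1 h4.2 (by omega) (gadT_iff.2 (by omega))
          (gadT_iff.2 (by omega))
    apply h2
    have := h3 (n - 1) (by omega)
    rwa [show 3 * (n - 1) + 2 = 3 * n - 1 by omega] at this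
  have h3 : ∀ i, i < n → (v, 3 * i) ∉ A := by
    intro i
    induction i with
    | zero => exact fun _ => h0
    | succ i ih =>
      intro hi hcon
      have h4 := (hX i (by omega)).1 (ih (by omega))
      exact no3 hK h4.1 h4.2 hcon (by omega) (gadT_iff.2 (by omega)) (gadT_iff.2 (by omega))
  exact fun w hw => (hX w hw).1 (h3 w hw)

include hA hK in
theorem cycA_ge (hn : 1 ≤ n) {m : ℕ} (hm : 2 * n * n + m ≤ A.card) :
    ∃ X, Ind n E X ∧ m ≤ X.card := by
  classical
  refine ⟨(range n).filter fun v => 2 * n + 1 ≤ ∑ t ∈ range (3 * n + 1),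
    if (v, t) ∈ A then 1 else 0, ⟨filter_subset _ _, ?_⟩, ?_⟩
  · intro v hv w hw hvw
    rw [mem_filter, mem_range] at hv hw
    rw [← Bool.not_eq_true]
    intro hE
    have h1 := full hK hn hv.2 w hw.1
    have h2 := full hK hn hw.2 v hv.1
    refine two_nbrs hK h1.2 h1.1 h2.2 ?_ (cT_iff.2 (Or.inl ⟨rfl, gadT_iff.2 (by omega)⟩))
      (cT_iff.2 (Or.inr ⟨hvw, hE, rfl, rfl⟩))
    rw [Ne, Prod.mk.injEq]
    exact fun h => hvw h.1
  · rw [card_fiber hA] at hm
    have h1 : ∀ v ∈ range n, (∑ t ∈ range (3 * n + 1), if (v, t) ∈ A then 1 else 0) ≤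
        2 * n + if 2 * n + 1 ≤ (∑ t ∈ range (3 * n + 1), if (v, t) ∈ A then 1 else 0) then 1
          else 0 := by
      intro v _
      split_ifs with h
      · rw [sum_range_succ, sum_windows]
        have hW : ∀ i ∈ range n, ((if (v, 3 * i) ∈ A then 1 else 0) +
            (if (v, 3 * i + 1) ∈ A then 1 else 0) + (if (v, 3 * i + 2) ∈ A then 1 else 0)) ≤ 2 := by
          intro i hi
          rw [mem_range] at hi
          by_cases h0 : (v, 3 * i) ∈ A
          · by_cases h1 : (v, 3 * i + 1) ∈ A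
            · by_cases h2 : (v, 3 * i + 2) ∈ A
              · exact (no3 hK h0 h1 h2 (by omega) (gadT_iff.2 (by omega))
                  (gadT_iff.2 (by omega))).elim
              · rw [if_pos h0, if_pos h1, if_neg h2]
            · rw [if_neg h1]; split_ifs <;> omega
          · rw [if_neg h0]; split_ifs <;> omega
        have := sum_le_sum hW
        rw [sum_const, card_range, smul_eq_mul] at this
        have h2 : (if (v, 3 * n) ∈ A then 1 else 0) ≤ 1 := by split_ifs <;> omega
        omega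
      · omega
    have h2 := hm.trans (sum_le_sum h1)
    rw [sum_add_distrib, sum_const, card_range, smul_eq_mul, ← card_filter] at h2
    have h3 : n * (2 * n) = 2 * n * n := by ring
    omega

end

end Pool.Agent.R538.KI
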