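import Mathlib
import Pool.Agent.R538.KI.CycA

/-!
From independent sets to dominating sets in graphs of maximum degree three.
-/

set_option autoImplicit false

namespace Pool.Agent.R538.KI

open Finset

/-- dominating sets of labels -/
def DomL {β : Type} (S : Finset β) (T : β → β → Bool) (D : Finset β) : Prop :=
  ∀ x ∈ S, x ∈ D ∨ ∃ y ∈ D, T x y = true

/-- the labels: positions in gadgets and edges -/
abbrev BL : Type := (ℕ × ℕ) ⊕ (ℕ × ℕ)

/-- the edges -/
def zF (n : ℕ) (E : ℕ → ℕ → Bool) : Finset (ℕ × ℕ) :=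
  (range n ×ˢ range n).filter fun p => p.1 < p.2 ∧ E p.1 p.2 = true

/-- the vertices -/
def bS (n : ℕ) (E : ℕ → ℕ → Bool) : Finset BL := disjSum (cS n) (zF n E)

/-- the vertex of an edge is adjacent to two ports -/
def zp (p q : ℕ × ℕ) : Bool :=
  (decide (p.1 = q.1) && decide (p.2 = 3 * q.2 + 2)) ||
    (decide (p.1 = q.2) && decide (p.2 = 3 * q.1 + 2))

/-- adjacency -/
def bT (n : ℕ) (x y : BL) : Bool :=
  Sum.elim
    (fun p => Sum.elim (fun p' => decide (p.1 = p'.1) && gadT n p.2 p'.2) (fun q' => zp p q') y)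
    (fun q => Sum.elim (fun p' => zp p' q) (fun _ => false) y) x

variable {n : ℕ} {E : ℕ → ℕ → Bool}

theorem zp_iff {v t v' w' : ℕ} : zp (v, t) (v', w') = true ↔
    (v = v' ∧ t = 3 * w' + 2) ∨ (v = w' ∧ t = 3 * v' + 2) := by
  simp [zp]

theorem bT_ll {v t v' t' : ℕ} : bT n (Sum.inl (v, t)) (Sum.inl (v', t')) = true ↔
    v = v' ∧ gadT n t t' = true := by
  simp [bT]

theorem bT_lr {v t v' w' : ℕ} : bT n (Sum.inl (v, t)) (Sum.inr (v', w')) = true ↔
    (v = v' ∧ t = 3 * w' + 2) ∨ (v = w' ∧ t = 3 * v' + 2) := by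
  rw [← zp_iff]
  rfl

theorem bT_rl {v t v' w' : ℕ} : bT n (Sum.inr (v', w')) (Sum.inl (v, t)) = true ↔
    (v = v' ∧ t = 3 * w' + 2) ∨ (v = w' ∧ t = 3 * v' + 2) := by
  rw [← zp_iff]
  rfl

theorem bT_rr {q q' : ℕ × ℕ} : bT n (Sum.inr q) (Sum.inr q') = false := rfl

theorem gadT_symm (n t t' : ℕ) : gadT n t t' = gadT n t' t := by
  rw [Bool.eq_iff_iff, gadT_iff, gadT_iff]
  constructor <;>
  · rintro (⟨h1, h2, h3 | h3 | h3 | h3⟩ | h3 | h3) <;> omega

theorem bT_symm (x y : BL) : bT n x y = bT n y x := by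
  rw [Bool.eq_iff_iff]
  rcases x with ⟨v, t⟩ | ⟨v, w⟩ <;> rcases y with ⟨v', t'⟩ | ⟨v', w'⟩
  · rw [bT_ll, bT_ll, gadT_symm, eq_comm]
  · rw [bT_lr, bT_rl]
  · rw [bT_lr, bT_rl]
  · rw [bT_rr, bT_rr]

theorem bT_irr (hn : 1 ≤ n) (x : BL) : bT n x x = false := by
  rw [← Bool.not_eq_true]
  rcases x with ⟨v, t⟩ | ⟨v, w⟩
  · rw [bT_ll, gadT_iff]
    omega
  · rw [bT_rr]
    simp

/-- the degrees -/
def dgB (n : ℕ) (E : ℕ → ℕ → Bool) (x : BL) : ℕ :=
  Sum.elim (fun p => dgA n E p) (fun _ => 2) x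

theorem dgB_le (x : BL) : dgB n E x ≤ 3 := by
  rcases x with x | x
  · exact dgA_le x
  · change 2 ≤ 3
    omega

theorem mem_zF {v w : ℕ} : (v, w) ∈ zF n E ↔ (v < n ∧ w < n) ∧ v < w ∧ E v w = true := by
  rw [zF, mem_filter, mem_product, mem_range, mem_range]

theorem mem_cS {v t : ℕ} : (v, t) ∈ cS n ↔ v < n ∧ t < 3 * n + 1 := by
  rw [cS, mem_product, mem_range, mem_range]

theorem nb_disjSum {α β : Type} [DecidableEq α] [DecidableEq β] (T : α ⊕ β → α ⊕ β → Bool)
    (A : Finset α) (B : Finset β) (x : α ⊕ β) :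
    nb T (disjSum A B) x = (A.filter fun a => T x (Sum.inl a) = true).card +
      (B.filter fun b => T x (Sum.inr b) = true).card := by
  rw [nb, ← card_disjSum]
  congr 1
  ext y
  rcases y with y | y
  · rw [mem_filter, inl_mem_disjSum, inl_mem_disjSum, mem_filter]
  · rw [mem_filter, inr_mem_disjSum, inr_mem_disjSum, mem_filter]

theorem gad_deg (hn : 1 ≤ n) {v t : ℕ} (hx : (v, t) ∈ cS n) :
    ((cS n).filter fun y => bT n (Sum.inl (v, t)) (Sum.inl y) = true).card =
      dgA n (fun _ _ => false) (v, t) := by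
  rw [← nb_cT hn _ hx, nb]
  congr 1
  ext ⟨v', t'⟩
  rw [mem_filter, mem_filter, bT_ll, cT_iff]
  simp

theorem z_deg (hE : ∀ v w, E v w = E w v) {v t : ℕ} (hx : (v, t) ∈ cS n) :
    ((zF n E).filter fun y => bT n (Sum.inl (v, t)) (Sum.inr y) = true).card =
      if t < 3 * n ∧ t % 3 = 2 ∧ t / 3 ≠ v ∧ E v (t / 3) = true then 1 else 0 := by
  rw [mem_cS] at hx
  split_ifs with h
  · obtain ⟨h1, h2, h3, h4⟩ := h
    have htt : t = 3 * (t / 3) + 2 := by omega
    generalize t / 3 = w at *
    subst htt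
    have : (zF n E).filter (fun y => bT n (Sum.inl (v, 3 * w + 2)) (Sum.inr y) = true) =
        {if v < w then (v, w) else (w, v)} := by
      ext ⟨v', w'⟩
      rw [mem_filter, mem_zF, bT_lr, mem_singleton]
      constructor
      · rintro ⟨⟨h5, h6, h7⟩, ⟨h8, h9⟩ | ⟨h8, h9⟩⟩
        · rw [if_pos (by omega), Prod.mk.injEq]; omega
        · rw [if_neg (by omega), Prod.mk.injEq]; omega
      · intro h
        split_ifs at h with h8
        · rw [Prod.mk.injEq] at h
          obtain ⟨rfl, rfl⟩ := h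
          exact ⟨⟨by omega, h8, h4⟩, Or.inl ⟨rfl, rfl⟩⟩
        · rw [Prod.mk.injEq] at h
          obtain ⟨rfl, rfl⟩ := h
          exact ⟨⟨by omega, by omega, by rw [hE]; exact h4⟩, Or.inr ⟨rfl, rfl⟩⟩
    rw [this, card_singleton]
  · rw [card_eq_zero, filter_eq_empty_iff]
    rintro ⟨v', w'⟩ hz hT
    rw [mem_zF] at hz
    rw [bT_lr] at hT
    apply h
    obtain ⟨h5, h6, h7⟩ := hz
    obtain ⟨h8, h9⟩ | ⟨h8, h9⟩ := hT
    · have e : t / 3 = w' := by omega
      rw [e]
      rw [← h8] at h7
      exact ⟨by omega, by omega, by omega, h7⟩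
    · have e : t / 3 = v' := by omega
      rw [e]
      rw [← h8, hE] at h7
      exact ⟨by omega, by omega, by omega, h7⟩

theorem nb_bT (hn : 1 ≤ n) (hE : ∀ v w, E v w = E w v) (x : BL) (hx : x ∈ bS n E) :
    nb (bT n) (bS n E) x = dgB n E x := by
  rw [bS, nb_disjSum]
  rcases x with ⟨v, t⟩ | ⟨v, w⟩
  · rw [bS, inl_mem_disjSum] at hx
    rw [gad_deg hn hx, z_deg hE hx]
    rw [mem_cS] at hx
    change _ = dgA n E (v, t)
    unfold dgA
    simp only
    split_ifs <;> first | omega | (simp_all <;> omega)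
  · rw [bS, inr_mem_disjSum, mem_zF] at hx
    have h1 : (cS n).filter (fun y => bT n (Sum.inr (v, w)) (Sum.inl y) = true) =
        {(v, 3 * w + 2), (w, 3 * v + 2)} := by
      ext ⟨v', t'⟩
      rw [mem_filter, mem_cS, bT_rl, mem_insert, mem_singleton, Prod.mk.injEq, Prod.mk.injEq]
      constructor
      · rintro ⟨-, h⟩
        exact h
      · intro h
        exact ⟨by omega, h⟩
    have h2 : (zF n E).filter (fun y => bT n (Sum.inr (v, w)) (Sum.inr y) = true) = ∅ := by
      rw [filter_eq_empty_iff]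
      intro y _
      rw [bT_rr]
      simp
    rw [h1, h2, card_pair, card_empty]
    · rfl
    · rw [Ne, Prod.mk.injEq]; omega

/-! ### Domination -/

theorem cycB_le (hn : 1 ≤ n) {X : Finset ℕ} (hX : Ind n E X) :
    ∃ D ⊆ bS n E, DomL (bS n E) (bT n) D ∧ D.card + X.card = n * n + n := by
  classical
  set A : Finset (ℕ × ℕ) := (cS n).filter fun p =>
    if p.2 = 3 * n then p.1 ∉ X else if p.1 ∈ X then p.2 % 3 = 0 else p.2 % 3 = 2 with hAdef
  have hmem : ∀ v t, (v, t) ∈ A ↔ (v < n ∧ t < 3 * n + 1) ∧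
      (if t = 3 * n then v ∉ X else if v ∈ X then t % 3 = 0 else t % 3 = 2) := by
    intro v t
    rw [hAdef, mem_filter, mem_cS]
  refine ⟨disjSum A ∅, ?_, ?_, ?_⟩
  · intro x hx
    rcases x with x | x
    · rw [inl_mem_disjSum] at hx
      rw [bS, inl_mem_disjSum]
      exact (mem_filter.1 hx).1
    · rw [inr_mem_disjSum] at hx
      simp at hx
  · rintro (⟨v, t⟩ | ⟨v, w⟩) hx
    · rw [bS, inl_mem_disjSum, mem_cS] at hx
      have key : (v, t) ∈ A ∨ ∃ t', (v, t') ∈ A ∧ gadT n t t' = true := by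
        by_cases hv : v ∈ X
        · by_cases h0 : t % 3 = 0 ∧ t ≠ 3 * n
          · left
            rw [hmem, if_neg h0.2, if_pos hv]
            omega
          · right
            by_cases h1 : t = 3 * n
            · refine ⟨0, ?_, gadT_iff.2 (by omega)⟩
              rw [hmem, if_neg (by omega), if_pos hv]
              omega
            · by_cases h2 : t % 3 = 1
              · refine ⟨t - 1, ?_, gadT_iff.2 (by omega)⟩
                rw [hmem, if_neg (by omega), if_pos hv]
                omega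
              · by_cases h3 : t + 1 = 3 * n
                · refine ⟨0, ?_, gadT_iff.2 (by omega)⟩
                  rw [hmem, if_neg (by omega), if_pos hv]
                  omega
                · refine ⟨t + 1, ?_, gadT_iff.2 (by omega)⟩
                  rw [hmem, if_neg (by omega), if_pos hv]
                  omega
        · by_cases h1 : t = 3 * n
          · left
            rw [hmem, if_pos h1]
            exact ⟨hx, hv⟩
          · by_cases h0 : t % 3 = 2
            · left
              rw [hmem, if_neg h1, if_neg hv]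
              omega
            · right
              by_cases h2 : t % 3 = 1
              · refine ⟨t + 1, ?_, gadT_iff.2 (by omega)⟩
                rw [hmem, if_neg (by omega), if_neg hv]
                omega
              · by_cases h3 : t = 0
                · refine ⟨3 * n - 1, ?_, gadT_iff.2 (by omega)⟩
                  rw [hmem, if_neg (by omega), if_neg hv]
                  omega
                · refine ⟨t - 1, ?_, gadT_iff.2 (by omega)⟩
                  rw [hmem, if_neg (by omega), if_neg hv]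
                  omega
      rcases key with h | ⟨t', h1, h2⟩
      · left
        rw [inl_mem_disjSum]
        exact h
      · right
        exact ⟨Sum.inl (v, t'), inl_mem_disjSum.2 h1, bT_ll.2 ⟨rfl, h2⟩⟩
    · rw [bS, inr_mem_disjSum, mem_zF] at hx
      obtain ⟨h1, h2, h3⟩ := hx
      right
      by_cases hv : v ∈ X
      · have hw : w ∉ X := by
          intro hw
          rw [hX.2 v hv w hw (by omega)] at h3
          exact absurd h3 (by simp)
        refine ⟨Sum.inl (w, 3 * v + 2), inl_mem_disjSum.2 ?_, bT_rl.2 (Or.inr ⟨rfl, rfl⟩)⟩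
        rw [hmem, if_neg (by omega), if_neg hw]
        omega
      · refine ⟨Sum.inl (v, 3 * w + 2), inl_mem_disjSum.2 ?_, bT_rl.2 (Or.inl ⟨rfl, rfl⟩)⟩
        rw [hmem, if_neg (by omega), if_neg hv]
        omega
  · rw [card_disjSum, card_empty, card_fiber (A := A) (N := n) (M := 3 * n + 1)
      (filter_subset _ _)]
    have h1 : ∀ v ∈ range n, (∑ t ∈ range (3 * n + 1), if (v, t) ∈ A then 1 else 0) =
        n + if v ∉ X then 1 else 0 := by
      intro v hv
      rw [mem_range] at hv
      rw [sum_range_succ, sum_windows]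
      have h2 : ∀ i ∈ range n, ((if (v, 3 * i) ∈ A then 1 else 0) +
          (if (v, 3 * i + 1) ∈ A then 1 else 0) + (if (v, 3 * i + 2) ∈ A then 1 else 0)) = 1 := by
        intro i hi
        rw [mem_range] at hi
        by_cases hvX : v ∈ X
        · have e0 : (v, 3 * i) ∈ A := by
            rw [hmem, if_neg (by omega), if_pos hvX]; omega
          have e1 : (v, 3 * i + 1) ∉ A := by
            rw [hmem, if_neg (by omega), if_pos hvX]; omega
          have e2 : (v, 3 * i + 2) ∉ A := by
            rw [hmem, if_neg (by omega), if_pos hvX]; omega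
          rw [if_pos e0, if_neg e1, if_neg e2]
        · have e0 : (v, 3 * i) ∉ A := by
            rw [hmem, if_neg (by omega), if_neg hvX]; omega
          have e1 : (v, 3 * i + 1) ∉ A := by
            rw [hmem, if_neg (by omega), if_neg hvX]; omega
          have e2 : (v, 3 * i + 2) ∈ A := by
            rw [hmem, if_neg (by omega), if_neg hvX]; omega
          rw [if_neg e0, if_neg e1, if_pos e2]
      rw [sum_congr rfl h2, sum_const, card_range, smul_eq_mul, mul_one]
      congr 1
      by_cases hvX : v ∈ X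
      · rw [if_neg, if_neg (fun h => h hvX)]
        rw [hmem, if_pos rfl]
        exact fun h => h.2 hvX
      · rw [if_pos, if_pos hvX]
        rw [hmem, if_pos rfl]
        exact ⟨⟨hv, by omega⟩, hvX⟩
    rw [sum_congr rfl h1, sum_add_distrib, sum_const, card_range, smul_eq_mul, ← card_filter]
    have h2 := card_filter_add_card_filter_not (s := range n) (fun v => v ∈ X)
    rw [filter_mem_eq_inter, inter_eq_right.2 hX.1, card_range] at h2
    omega

section

variable {A : Finset (ℕ × ℕ)} {Z : Finset (ℕ × ℕ)}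

/-- exactly one vertex of every window, and the ports are not used -/
theorem exact {v : ℕ} (hn : 1 ≤ n)
    (hW : ∀ i < n, (v, 3 * i) ∈ A ∨ (v, 3 * i + 1) ∈ A ∨ (v, 3 * i + 2) ∈ A)
    (hr : (v, 3 * n) ∈ A ∨ (v, 0) ∈ A)
    (h3 : ∀ i < n, 1 ≤ i → (v, 3 * i) ∈ A ∨ (v, 3 * i + 1) ∈ A ∨ (v, 3 * i - 1) ∈ A)
    (hsum : (∑ t ∈ range (3 * n + 1), if (v, t) ∈ A then 1 else 0) ≤ n) :
    ∀ w < n, (v, 3 * w + 2) ∉ A := by
  have hW1 : ∀ i < n, 1 ≤ ((if (v, 3 * i) ∈ A then 1 else 0) +
      (if (v, 3 * i + 1) ∈ A then 1 else 0) + (if (v, 3 * i + 2) ∈ A then 1 else 0)) := by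
    intro i hi
    rcases hW i hi with h | h | h
    · rw [if_pos h]; omega
    · rw [if_pos h]; omega
    · rw [if_pos h]; omega
  rw [sum_range_succ, sum_windows] at hsum
  have hs := sum_le_sum (s := range n) (fun i hi => hW1 i (mem_range.1 hi))
  rw [sum_const, card_range, smul_eq_mul, mul_one] at hs
  have hr' : (v, 3 * n) ∉ A := by
    intro hcon
    rw [if_pos hcon] at hsum
    omega
  have h0 : (v, 0) ∈ A := hr.resolve_left hr'
  have hW2 : ∀ i < n, ((if (v, 3 * i) ∈ A then 1 else 0) +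
      (if (v, 3 * i + 1) ∈ A then 1 else 0) + (if (v, 3 * i + 2) ∈ A then 1 else 0)) ≤ 1 := by
    intro i hi
    by_contra hcon
    push Not at hcon
    have := sum_lt_sum (s := range n) (fun i hi => hW1 i (mem_range.1 hi))
      ⟨i, mem_range.2 hi, hcon⟩
    rw [sum_const, card_range, smul_eq_mul, mul_one] at this
    omega
  intro w
  induction w with
  | zero =>
    intro hw hcon
    have := hW2 0 hw
    rw [if_pos hcon, if_pos h0] at this
    omega
  | succ w ih =>
    intro hw hcon
    have h4 := hW2 (w + 1) hw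
    rw [if_pos hcon] at h4
    rcases h3 (w + 1) hw (by omega) with h | h | h
    · rw [if_pos h] at h4
      omega
    · rw [if_pos h] at h4
      omega
    · exact ih (by omega) (by rwa [show 3 * (w + 1) - 1 = 3 * w + 2 by omega] at h)

end

theorem cycB_ge (hn : 1 ≤ n) (hE : ∀ v w, E v w = E w v) {D : Finset BL}
    (hD : DomL (bS n E) (bT n) D) {m : ℕ} (hm : D.card + m ≤ n * n + n) :
    ∃ X, Ind n E X ∧ m ≤ X.card := by
  classical
  set A : Finset (ℕ × ℕ) := (cS n).filter fun p => Sum.inl p ∈ D with hA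
  set Z : Finset (ℕ × ℕ) := (zF n E).filter fun p => Sum.inr p ∈ D with hZ
  have hAZ : A.card + Z.card ≤ D.card := by
    rw [← card_disjSum]
    refine card_le_card ?_
    intro x hx
    rcases x with x | x
    · rw [inl_mem_disjSum] at hx
      exact (mem_filter.1 hx).2
    · rw [inr_mem_disjSum] at hx
      exact (mem_filter.1 hx).2
  have hdom : ∀ v t, v < n → t < 3 * n + 1 → t % 3 ≠ 2 →
      (v, t) ∈ A ∨ ∃ t', (v, t') ∈ A ∧ gadT n t t' = true := by
    intro v t hv ht ht2
    have h1 : (Sum.inl (v, t) : BL) ∈ bS n E := by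
      rw [bS, inl_mem_disjSum, mem_cS]
      exact ⟨hv, ht⟩
    rcases hD _ h1 with h2 | ⟨y, hy, hT⟩
    · exact Or.inl (mem_filter.2 ⟨mem_cS.2 ⟨hv, ht⟩, h2⟩)
    · rcases y with ⟨v', t'⟩ | ⟨v', w'⟩
      · right
        rw [bT_ll] at hT
        obtain ⟨rfl, hT⟩ := hT
        refine ⟨t', mem_filter.2 ⟨mem_cS.2 ⟨hv, ?_⟩, hy⟩, hT⟩
        rw [gadT_iff] at hT
        omega
      · rw [bT_lr] at hT
        omega
  have hport : ∀ v < n, (∑ t ∈ range (3 * n + 1), if (v, t) ∈ A then 1 else 0) ≤ n →
      ∀ w < n, (v, 3 * w + 2) ∉ A := by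
    intro v hv
    refine exact hn ?_ ?_ ?_
    · intro i hi
      rcases hdom v (3 * i + 1) hv (by omega) (by omega) with h | ⟨t', h, hT⟩
      · exact Or.inr (Or.inl h)
      · rw [gadT_iff] at hT
        have : t' = 3 * i ∨ t' = 3 * i + 2 := by omega
        rcases this with rfl | rfl
        · exact Or.inl h
        · exact Or.inr (Or.inr h)
    · rcases hdom v (3 * n) hv (by omega) (by omega) with h | ⟨t', h, hT⟩
      · exact Or.inl h
      · rw [gadT_iff] at hT
        have : t' = 0 := by omega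
        subst this
        exact Or.inr h
    · intro i hi hi1
      rcases hdom v (3 * i) hv (by omega) (by omega) with h | ⟨t', h, hT⟩
      · exact Or.inl h
      · rw [gadT_iff] at hT
        have : t' = 3 * i + 1 ∨ t' = 3 * i - 1 := by omega
        rcases this with rfl | rfl
        · exact Or.inr (Or.inl h)
        · exact Or.inr (Or.inr h)
  have hwin : ∀ v < n, n ≤ ∑ t ∈ range (3 * n + 1), if (v, t) ∈ A then 1 else 0 := by
    intro v hv
    rw [sum_range_succ, sum_windows]
    have hW1 : ∀ i ∈ range n, 1 ≤ ((if (v, 3 * i) ∈ A then 1 else 0) +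
        (if (v, 3 * i + 1) ∈ A then 1 else 0) + (if (v, 3 * i + 2) ∈ A then 1 else 0)) := by
      intro i hi
      rw [mem_range] at hi
      rcases hdom v (3 * i + 1) hv (by omega) (by omega) with h | ⟨t', h, hT⟩
      · rw [if_pos h]; omega
      · rw [gadT_iff] at hT
        have : t' = 3 * i ∨ t' = 3 * i + 2 := by omega
        rcases this with rfl | rfl
        · rw [if_pos h]; omega
        · rw [if_pos h]; omega
    have := sum_le_sum hW1
    rw [sum_const, card_range, smul_eq_mul, mul_one] at this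
    omega
  set Bad : Finset ℕ := (range n).filter fun v =>
    ¬ (∑ t ∈ range (3 * n + 1), if (v, t) ∈ A then 1 else 0) ≤ n with hBad
  have hBadc : n * n + Bad.card ≤ A.card := by
    rw [card_fiber (A := A) (N := n) (M := 3 * n + 1) (filter_subset _ _)]
    have h1 : ∀ v ∈ range n, (n + if ¬ (∑ t ∈ range (3 * n + 1), if (v, t) ∈ A then 1 else 0) ≤ n
        then 1 else 0) ≤ ∑ t ∈ range (3 * n + 1), if (v, t) ∈ A then 1 else 0 := by
      intro v hv
      have := hwin v (mem_range.1 hv)
      split_ifs with h <;> omega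
    have h2 := sum_le_sum h1
    rw [sum_add_distrib, sum_const, card_range, smul_eq_mul, ← card_filter] at h2
    exact h2
  refine ⟨range n \ (Bad ∪ Z.image Prod.fst), ⟨sdiff_subset, ?_⟩, ?_⟩
  · have key : ∀ v ∈ range n \ (Bad ∪ Z.image Prod.fst), ∀ w ∈ range n \ (Bad ∪ Z.image Prod.fst),
        v < w → E v w = false := by
      intro v hv w hw hvw
      rw [mem_sdiff, mem_union, not_or, mem_range] at hv hw
      rw [← Bool.not_eq_true]
      intro hEvw
      have hz : (v, w) ∈ zF n E := mem_zF.2 ⟨⟨hv.1, hw.1⟩, hvw, hEvw⟩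
      have h1 : ∀ u < n, u ∉ Bad → (∑ t ∈ range (3 * n + 1), if (u, t) ∈ A then 1 else 0) ≤ n := by
        intro u hu h
        by_contra hcon
        exact h (mem_filter.2 ⟨mem_range.2 hu, hcon⟩)
      rcases hD (Sum.inr (v, w)) (inr_mem_disjSum.2 hz) with h2 | ⟨y, hy, hT⟩
      · exact hv.2.2 (mem_image.2 ⟨(v, w), mem_filter.2 ⟨hz, h2⟩, rfl⟩)
      · rcases y with ⟨v', t'⟩ | ⟨v', w'⟩
        · rw [bT_rl] at hT
          rcases hT with ⟨rfl, rfl⟩ | ⟨rfl, rfl⟩
          · exact hport v' hv.1 (h1 v' hv.1 hv.2.1) w hw.1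
              (mem_filter.2 ⟨mem_cS.2 ⟨hv.1, by omega⟩, hy⟩)
          · exact hport v' hw.1 (h1 v' hw.1 hw.2.1) v hv.1
              (mem_filter.2 ⟨mem_cS.2 ⟨hw.1, by omega⟩, hy⟩)
        · rw [bT_rr] at hT
          exact absurd hT (by simp)
    intro v hv w hw hvw
    rcases Nat.lt_or_gt_of_ne hvw with h | h
    · exact key v hv w hw h
    · rw [hE]
      exact key w hw v hv h
  · have h1 := le_card_sdiff (Bad ∪ Z.image Prod.fst) (range n)
    have h2 := card_union_le Bad (Z.image Prod.fst)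
    have h3 := card_image_le (s := Z) (f := Prod.fst)
    rw [card_range] at h1
    omega

end Pool.Agent.R538.KI
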