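import Mathlib
import Pool.Agent.R538.KI.Base

/-!
Filling up the degrees with complete graphs minus an edge.
-/

set_option autoImplicit false

namespace Pool.Agent.R538.KI

open Finset

variable {β : Type} [DecidableEq β]

/-- two copies of a graph, and the cliques -/
abbrev FL (β : Type) : Type := (Bool × β) ⊕ ((β × ℕ) × ℕ)

/-- the indices of the cliques -/
def fF (S : Finset β) (δ : β → ℕ) (R : ℕ) : Finset (β × ℕ) :=
  (S ×ˢ range R).filter fun p => p.2 < δ p.1

/-- the vertices -/
def fS (S : Finset β) (δ : β → ℕ) (R : ℕ) : Finset (FL β) :=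
  disjSum ((univ : Finset Bool) ×ˢ S) (fF S δ R ×ˢ range (R + 1))

/-- the port `c` belongs to the copy `b` -/
def pc (b : Bool) (c : ℕ) : Bool := (!b && decide (c = 0)) || (b && decide (c = 1))

/-- the adjacency -/
def fT (T : β → β → Bool) (x y : FL β) : Bool :=
  Sum.elim
    (fun p => Sum.elim (fun p' => decide (p.1 = p'.1) && T p.2 p'.2)
      (fun q' => decide (p.2 = q'.1.1) && pc p.1 q'.2) y)
    (fun q => Sum.elim (fun p' => decide (p'.2 = q.1.1) && pc p'.1 q.2)
      (fun q' => decide (q.1 = q'.1) && (decide (q.2 ≠ q'.2) &&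
        !(decide (q.2 < 2) && decide (q'.2 < 2)))) y) x

variable {S : Finset β} {T : β → β → Bool} {δ : β → ℕ} {R k : ℕ}

@[simp] theorem fT_ll (b b' : Bool) (y y' : β) : fT T (Sum.inl (b, y)) (Sum.inl (b', y')) = true ↔
    b = b' ∧ T y y' = true := by
  simp [fT]

@[simp] theorem fT_lr (b : Bool) (y : β) (q : β × ℕ) (c : ℕ) :
    fT T (Sum.inl (b, y)) (Sum.inr (q, c)) = true ↔ y = q.1 ∧ pc b c = true := by
  simp [fT]

@[simp] theorem fT_rl (b : Bool) (y : β) (q : β × ℕ) (c : ℕ) :
    fT T (Sum.inr (q, c)) (Sum.inl (b, y)) = true ↔ y = q.1 ∧ pc b c = true := by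
  simp [fT]

@[simp] theorem fT_rr (q q' : β × ℕ) (c c' : ℕ) :
    fT T (Sum.inr (q, c)) (Sum.inr (q', c')) = true ↔ q = q' ∧ c ≠ c' ∧ ¬ (c < 2 ∧ c' < 2) := by
  simp only [fT, Sum.elim_inr, Bool.and_eq_true, decide_eq_true_eq, Bool.not_eq_true',
    Bool.and_eq_false_iff, decide_eq_false_iff_not]
  tauto

theorem pc_iff (b : Bool) (c : ℕ) : pc b c = true ↔ c = if b = true then 1 else 0 := by
  cases b <;> simp [pc]

theorem fT_symm (hsym : ∀ x y, T x y = T y x) (x y : FL β) : fT T x y = fT T y x := by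
  rw [Bool.eq_iff_iff]
  rcases x with ⟨b, y1⟩ | ⟨q, c⟩ <;> rcases y with ⟨b', y2⟩ | ⟨q', c'⟩
  · rw [fT_ll, fT_ll, hsym]
    constructor <;> rintro ⟨h1, h2⟩ <;> exact ⟨h1.symm, h2⟩
  · rw [fT_lr, fT_rl]
  · rw [fT_lr, fT_rl]
  · rw [fT_rr, fT_rr]
    constructor <;> rintro ⟨h1, h2, h3⟩ <;> exact ⟨h1.symm, h2.symm, fun h => h3 h.symm⟩

theorem fT_irr (hirr : ∀ x ∈ S, T x x = false) (x : FL β) (hx : x ∈ fS S δ R) :
    fT T x x = false := by
  rw [← Bool.not_eq_true]
  rcases x with ⟨b, y⟩ | ⟨q, c⟩
  · rw [fT_ll]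
    simp only [fS, inl_mem_disjSum, mem_product] at hx
    rw [hirr y hx.2]
    simp
  · rw [fT_rr]
    exact fun h => h.2.1 rfl

theorem mem_fF {y : β} {t : ℕ} : (y, t) ∈ fF S δ R ↔ (y ∈ S ∧ t < R) ∧ t < δ y := by
  simp [fF]

/-- every vertex has degree `R` -/
theorem fS_reg (hR : 2 ≤ R) (hδ : ∀ y ∈ S, nb T S y + δ y = R) (x : FL β) (hx : x ∈ fS S δ R) :
    nb (fT T) (fS S δ R) x = R := by
  rcases x with ⟨b, y⟩ | ⟨⟨y, t⟩, c⟩
  · have hy : y ∈ S := by
      simp only [fS, inl_mem_disjSum, mem_product] at hx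
      exact hx.2
    have hd := hδ y hy
    have h1 : (fS S δ R).filter (fun z => fT T (Sum.inl (b, y)) z = true) =
        disjSum ((S.filter fun z => T y z = true).image fun z => (b, z))
          ((range (δ y)).image fun t => ((y, t), if b = true then 1 else 0)) := by
      ext z
      rcases z with ⟨b', y'⟩ | ⟨⟨y', t⟩, c⟩
      · rw [mem_filter, fT_ll, inl_mem_disjSum, fS, inl_mem_disjSum, mem_product, mem_image]
        constructor
        · rintro ⟨⟨-, h1⟩, rfl, h2⟩
          exact ⟨y', mem_filter.2 ⟨h1, h2⟩, rfl⟩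
        · rintro ⟨z, hz, h⟩
          rw [Prod.mk.injEq] at h
          obtain ⟨rfl, rfl⟩ := h
          exact ⟨⟨mem_univ _, (mem_filter.1 hz).1⟩, rfl, (mem_filter.1 hz).2⟩
      · rw [mem_filter, fT_lr, inr_mem_disjSum, fS, inr_mem_disjSum, mem_product, mem_fF,
          pc_iff, mem_image, mem_range]
        constructor
        · rintro ⟨⟨⟨-, h1⟩, -⟩, h2, rfl⟩
          simp only at h2
          subst h2
          exact ⟨t, mem_range.2 h1, rfl⟩
        · rintro ⟨t', ht', h⟩
          rw [Prod.mk.injEq, Prod.mk.injEq] at h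
          obtain ⟨⟨rfl, rfl⟩, rfl⟩ := h
          rw [mem_range] at ht'
          refine ⟨⟨⟨⟨hy, by omega⟩, ht'⟩, ?_⟩, rfl, rfl⟩
          split_ifs <;> omega
    rw [nb, h1, card_disjSum, card_image_of_injective _ (fun a b h => (Prod.mk.inj h).2),
      card_image_of_injective _ (fun a b h => (Prod.mk.inj (Prod.mk.inj h).1).2), card_range]
    exact hd
  · have hy : ((y ∈ S ∧ t < R) ∧ t < δ y) ∧ c < R + 1 := by
      simpa [fS, mem_fF] using hx
    have h1 : (fS S δ R).filter (fun z => fT T (Sum.inr ((y, t), c)) z = true) =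
        disjSum (if c = 0 then {(false, y)} else if c = 1 then {(true, y)} else ∅)
          (((range (R + 1)).filter fun c' => c ≠ c' ∧ ¬ (c < 2 ∧ c' < 2)).image
            fun c' => ((y, t), c')) := by
      ext z
      rcases z with ⟨b', y'⟩ | ⟨⟨y', t'⟩, c'⟩
      · rw [mem_filter, fT_rl, inl_mem_disjSum, fS, inl_mem_disjSum, mem_product, pc_iff]
        simp only
        constructor
        · rintro ⟨⟨-, h1⟩, rfl, h2⟩
          cases b'
          · rw [if_neg (by simp)] at h2
            rw [if_pos h2]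
            simp
          · rw [if_pos rfl] at h2
            subst h2
            simp
        · intro h
          split_ifs at h with h2 h3
          · rw [mem_singleton, Prod.mk.injEq] at h
            obtain ⟨rfl, rfl⟩ := h
            exact ⟨⟨mem_univ _, hy.1.1.1⟩, rfl, by simp [h2]⟩
          · rw [mem_singleton, Prod.mk.injEq] at h
            obtain ⟨rfl, rfl⟩ := h
            exact ⟨⟨mem_univ _, hy.1.1.1⟩, rfl, by simp [h3]⟩
          · simp at h
      · rw [mem_filter, fT_rr, inr_mem_disjSum, fS, inr_mem_disjSum, mem_product, mem_fF,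
          mem_image, mem_range]
        constructor
        · rintro ⟨⟨-, h1⟩, h2, h3⟩
          refine ⟨c', mem_filter.2 ⟨mem_range.2 h1, h3⟩, by rw [h2]⟩
        · rintro ⟨c'', hc, h⟩
          rw [Prod.mk.injEq, Prod.mk.injEq] at h
          obtain ⟨⟨rfl, rfl⟩, rfl⟩ := h
          rw [mem_filter, mem_range] at hc
          exact ⟨⟨hy.1, hc.1⟩, rfl, hc.2⟩
    rw [nb, h1, card_disjSum, card_image_of_injective _ (fun a b h => (Prod.mk.inj h).2)]
    by_cases hc : c < 2
    · have h2 : (range (R + 1)).filter (fun c' => c ≠ c' ∧ ¬ (c < 2 ∧ c' < 2)) = Ico 2 (R + 1) := by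
        ext c'
        simp only [mem_filter, mem_range, mem_Ico]
        omega
      rw [h2, Nat.card_Ico]
      have h3 : (if c = 0 then ({(false, y)} : Finset (Bool × β)) else
          if c = 1 then {(true, y)} else ∅).card = 1 := by
        split_ifs with h4 h5
        · rw [card_singleton]
        · rw [card_singleton]
        · omega
      rw [h3]
      omega
    · have h2 : (range (R + 1)).filter (fun c' => c ≠ c' ∧ ¬ (c < 2 ∧ c' < 2)) =
          (range (R + 1)).erase c := by
        ext c'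
        simp only [mem_filter, mem_range, mem_erase]
        omega
      rw [h2, card_erase_of_mem (mem_range.2 hy.2), card_range, if_neg (by omega),
        if_neg (by omega), card_empty]
      omega

theorem fill_le (hk : 1 ≤ k) (hR : k + 2 ≤ R) {m : ℕ} (h : Al S T k m) :
    Al (fS S δ R) (fT T) k (2 * m + (k + 1) * (fF S δ R).card) := by
  obtain ⟨A, hA, hK, hm⟩ := h
  refine ⟨disjSum (univ ×ˢ A) (fF S δ R ×ˢ Ico 2 (k + 3)), ?_, ?_, ?_⟩
  · intro z hz
    rcases z with ⟨b, y⟩ | ⟨q, c⟩
    · rw [inl_mem_disjSum, mem_product] at hz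
      rw [fS, inl_mem_disjSum, mem_product]
      exact ⟨mem_univ _, hA hz.2⟩
    · rw [inr_mem_disjSum, mem_product, mem_Ico] at hz
      rw [fS, inr_mem_disjSum, mem_product, mem_range]
      exact ⟨hz.1, by omega⟩
  · intro z hz
    rcases z with ⟨b, y⟩ | ⟨q, c⟩
    · rw [inl_mem_disjSum, mem_product] at hz
      refine le_trans ?_ (hK y hz.2)
      rw [nb, nb, ← card_image_of_injective (A.filter fun z => T y z = true)
        (f := fun z => (Sum.inl (b, z) : FL β)) (fun a b h => (Prod.mk.inj (Sum.inl.inj h)).2)]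
      refine card_le_card ?_
      intro z hz'
      rw [mem_filter] at hz'
      rcases z with ⟨b', y'⟩ | ⟨q', c'⟩
      · rw [inl_mem_disjSum, mem_product, fT_ll] at hz'
        obtain ⟨⟨-, h1⟩, rfl, h2⟩ := hz'
        exact mem_image.2 ⟨y', mem_filter.2 ⟨h1, h2⟩, rfl⟩
      · rw [inr_mem_disjSum, mem_product, mem_Ico, fT_lr, pc_iff] at hz'
        obtain ⟨⟨-, h1⟩, -, h2⟩ := hz'
        split_ifs at h2 <;> omega
    · rw [inr_mem_disjSum, mem_product, mem_Ico] at hz
      have h1 : ((Ico 2 (k + 3)).erase c).card = k := by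
        rw [card_erase_of_mem (mem_Ico.2 hz.2), Nat.card_Ico]
        omega
      refine le_trans ?_ h1.le
      rw [nb, ← card_image_of_injective ((Ico 2 (k + 3)).erase c)
        (f := fun c' => (Sum.inr (q, c') : FL β)) (fun a b h => (Prod.mk.inj (Sum.inr.inj h)).2)]
      refine card_le_card ?_
      intro z hz'
      rw [mem_filter] at hz'
      rcases z with ⟨b', y'⟩ | ⟨q', c'⟩
      · rw [fT_rl, pc_iff] at hz'
        obtain ⟨-, -, h2⟩ := hz'
        split_ifs at h2 <;> omega
      · rw [inr_mem_disjSum, mem_product, fT_rr] at hz'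
        obtain ⟨⟨-, h1⟩, rfl, h2, -⟩ := hz'
        exact mem_image.2 ⟨c', mem_erase.2 ⟨h2.symm, h1⟩, rfl⟩
  · rw [card_disjSum, card_product, card_product, Nat.card_Ico, Finset.card_univ,
      Fintype.card_bool]
    have : (fF S δ R).card * (k + 3 - 2) = (k + 1) * (fF S δ R).card := by
      rw [mul_comm]
      congr 1
    omega

theorem fill_ge (hk : 1 ≤ k) {m : ℕ}
    (h : Al (fS S δ R) (fT T) k (2 * m + (k + 1) * (fF S δ R).card)) : Al S T k m := by
  obtain ⟨A, hA, hK, hm⟩ := h
  -- the two copies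
  set B : Bool → Finset β := fun b => S.filter fun y => Sum.inl (b, y) ∈ A with hB
  set C : β × ℕ → Finset ℕ := fun q => (range (R + 1)).filter fun c => Sum.inr (q, c) ∈ A with hC
  have hBk : ∀ b, KInd T k (B b) := by
    intro b y hy
    refine le_trans ?_ (hK (Sum.inl (b, y)) (mem_filter.1 hy).2)
    rw [nb, nb, ← card_image_of_injective ((B b).filter fun z => T y z = true)
      (f := fun z => (Sum.inl (b, z) : FL β)) (fun a b h => (Prod.mk.inj (Sum.inl.inj h)).2)]
    refine card_le_card ?_
    intro z hz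
    obtain ⟨y', hy', rfl⟩ := mem_image.1 hz
    rw [mem_filter] at hy'
    rw [mem_filter, fT_ll]
    exact ⟨(mem_filter.1 hy'.1).2, rfl, hy'.2⟩
  have hCk : ∀ q, (C q).card ≤ k + 1 := by
    intro q
    by_cases hex : ∃ c ∈ C q, 2 ≤ c
    · obtain ⟨c, hc, hc2⟩ := hex
      have h1 := hK (Sum.inr (q, c)) (mem_filter.1 hc).2
      have h2 : ((C q).erase c).card ≤ nb (fT T) A (Sum.inr (q, c)) := by
        rw [nb, ← card_image_of_injective ((C q).erase c)
          (f := fun c' => (Sum.inr (q, c') : FL β)) (fun a b h => (Prod.mk.inj (Sum.inr.inj h)).2)]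
        refine card_le_card ?_
        intro z hz
        obtain ⟨c', hc', rfl⟩ := mem_image.1 hz
        rw [mem_erase] at hc'
        rw [mem_filter, fT_rr]
        exact ⟨(mem_filter.1 hc'.2).2, rfl, hc'.1.symm, by omega⟩
      rw [card_erase_of_mem hc] at h2
      omega
    · push Not at hex
      have h1 : C q ⊆ range 2 := fun c hc => mem_range.2 (hex c hc)
      have := card_le_card h1
      rw [card_range] at this
      omega
  have hcard : A.card ≤ ((B false).card + (B true).card) + (k + 1) * (fF S δ R).card := by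
    have h1 : A ⊆ disjSum (univ.biUnion fun b => (B b).image fun y => (b, y))
        ((fF S δ R).biUnion fun q => (C q).image fun c => (q, c)) := by
      intro z hz
      have hz' := hA hz
      rcases z with ⟨b, y⟩ | ⟨q, c⟩
      · rw [fS, inl_mem_disjSum, mem_product] at hz'
        rw [inl_mem_disjSum, mem_biUnion]
        exact ⟨b, mem_univ _, mem_image.2 ⟨y, mem_filter.2 ⟨hz'.2, hz⟩, rfl⟩⟩
      · rw [fS, inr_mem_disjSum, mem_product] at hz'
        rw [inr_mem_disjSum, mem_biUnion]
        exact ⟨q, hz'.1, mem_image.2 ⟨c, mem_filter.2 ⟨hz'.2, hz⟩, rfl⟩⟩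
    have h2 := card_le_card h1
    rw [card_disjSum] at h2
    have h3 : (univ.biUnion fun b => (B b).image fun y => (b, y)).card ≤
        (B false).card + (B true).card := by
      refine card_biUnion_le.trans ?_
      rw [Fintype.sum_bool]
      have := card_image_le (s := B false) (f := fun y => (false, y))
      have := card_image_le (s := B true) (f := fun y => (true, y))
      omega
    have h4 : ((fF S δ R).biUnion fun q => (C q).image fun c => (q, c)).card ≤
        (k + 1) * (fF S δ R).card := by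
      refine card_biUnion_le.trans ?_
      rw [mul_comm]
      exact sum_le_card_nsmul _ _ _ fun q _ => card_image_le.trans (hCk q)
    omega
  rcases Nat.lt_or_ge (B false).card m with h | h
  · exact ⟨B true, filter_subset _ _, hBk true, by omega⟩
  · exact ⟨B false, filter_subset _ _, hBk false, h⟩

end Pool.Agent.R538.KI
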