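import Mathlib
import Pool.Agent.R538.KI.CycB
import Pool.Agent.R538.KI.Fill

/-!
Filling up the degrees without changing the domination problem.
-/

set_option autoImplicit false

namespace Pool.Agent.R538.KI

open Finset

section

variable {β : Type} [DecidableEq β]

/-- In an `R`-regular graph the complements of the `(R-1)`-independent sets are the dominating
sets. -/
theorem al_iff_dom {S : Finset β} {T : β → β → Bool} {R : ℕ} (hreg : ∀ x ∈ S, nb T S x = R)
    (hR : 1 ≤ R) {p : ℕ} :
    Al S T (R - 1) p ↔ ∃ D ⊆ S, DomL S T D ∧ D.card + p ≤ S.card := by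
  constructor
  · rintro ⟨A, hA, hK, hp⟩
    refine ⟨S \ A, sdiff_subset, ?_, ?_⟩
    · intro x hx
      by_cases hxA : x ∈ A
      · right
        by_contra hcon
        push Not at hcon
        have h1 : S.filter (fun y => T x y = true) ⊆ A.filter fun y => T x y = true := by
          intro y hy
          rw [mem_filter] at hy ⊢
          refine ⟨?_, hy.2⟩
          by_contra hyA
          exact hcon y (mem_sdiff.2 ⟨hy.1, hyA⟩) hy.2
        have h2 := card_le_card h1
        have h3 := hK x hxA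
        have h4 := hreg x hx
        rw [nb] at h3 h4
        omega
      · exact Or.inl (mem_sdiff.2 ⟨hx, hxA⟩)
    · have := card_sdiff_of_subset hA
      have := card_le_card hA
      omega
  · rintro ⟨D, hD, hdom, hp⟩
    refine ⟨S \ D, sdiff_subset, ?_, ?_⟩
    · intro x hx
      rw [mem_sdiff] at hx
      obtain ⟨y, hy, hT⟩ := (hdom x hx.1).resolve_left hx.2
      have h1 : (S \ D).filter (fun y => T x y = true) ⊆
          (S.filter fun y => T x y = true).erase y := by
        intro z hz
        rw [mem_filter, mem_sdiff] at hz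
        rw [mem_erase, mem_filter]
        refine ⟨?_, hz.1.1, hz.2⟩
        rintro rfl
        exact hz.1.2 hy
      have h2 := card_le_card h1
      rw [card_erase_of_mem (mem_filter.2 ⟨hD hy, hT⟩)] at h2
      have h4 := hreg x hx.1
      rw [nb] at h4 ⊢
      omega
    · have := card_sdiff_of_subset hD
      omega

end

variable {α : Type} [DecidableEq α]

/-- labels -/
abbrev NL (α : Type) : Type := (Bool × ℕ) × (α ⊕ ((α × ℕ) × ℕ))

/-- the vertices -/
def nS (S : Finset α) (δ : α → ℕ) (R : ℕ) : Finset (NL α) :=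
  ((univ : Finset Bool) ×ˢ range (R - 1)) ×ˢ disjSum S (fF S δ R ×ˢ range (R + 1))

/-- adjacency inside a block -/
def gb (c c' : Bool × ℕ) (g g' : ℕ) : Bool :=
  (decide (c = c') && ((decide (g = 1) || decide (g' = 1)) && !decide (g = g'))) ||
    ((decide (c.1 = c'.1) && (!decide (c.2 = c'.2) && (decide (g = 0) && decide (g' = 0)))) ||
      (!decide (c.1 = c'.1) && (decide (c.2 = c'.2) && (decide (2 ≤ g) && decide (2 ≤ g')))))

/-- adjacency -/
def nT (T : α → α → Bool) (x y : NL α) : Bool :=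
  Sum.elim
    (fun a => Sum.elim (fun a' => decide (x.1 = y.1) && T a a')
      (fun q' => decide (x.1 = y.1) && (decide (a = q'.1.1) && decide (q'.2 = 0))) y.2)
    (fun q => Sum.elim
      (fun a' => decide (y.1 = x.1) && (decide (a' = q.1.1) && decide (q.2 = 0)))
      (fun q' => decide (q.1 = q'.1) && gb x.1 y.1 q.2 q'.2) y.2) x.2

variable {S : Finset α} {T : α → α → Bool} {δ : α → ℕ} {R : ℕ}

theorem nT_ll {c c' : Bool × ℕ} {a a' : α} :
    nT T (c, Sum.inl a) (c', Sum.inl a') = true ↔ c = c' ∧ T a a' = true := by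
  simp [nT]

theorem nT_lr {c c' : Bool × ℕ} {a : α} {q : α × ℕ} {g : ℕ} :
    nT T (c, Sum.inl a) (c', Sum.inr (q, g)) = true ↔ c = c' ∧ a = q.1 ∧ g = 0 := by
  simp [nT]

theorem nT_rl {c c' : Bool × ℕ} {a : α} {q : α × ℕ} {g : ℕ} :
    nT T (c', Sum.inr (q, g)) (c, Sum.inl a) = true ↔ c = c' ∧ a = q.1 ∧ g = 0 := by
  simp [nT]

theorem gb_iff {c c' : Bool × ℕ} {g g' : ℕ} : gb c c' g g' = true ↔
    (c = c' ∧ (g = 1 ∨ g' = 1) ∧ g ≠ g') ∨ (c.1 = c'.1 ∧ c.2 ≠ c'.2 ∧ g = 0 ∧ g' = 0) ∨
      (c.1 ≠ c'.1 ∧ c.2 = c'.2 ∧ 2 ≤ g ∧ 2 ≤ g') := by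
  simp [gb]

theorem nT_rr {c c' : Bool × ℕ} {q q' : α × ℕ} {g g' : ℕ} :
    nT T (c, Sum.inr (q, g)) (c', Sum.inr (q', g')) = true ↔ q = q' ∧
      ((c = c' ∧ (g = 1 ∨ g' = 1) ∧ g ≠ g') ∨ (c.1 = c'.1 ∧ c.2 ≠ c'.2 ∧ g = 0 ∧ g' = 0) ∨
      (c.1 ≠ c'.1 ∧ c.2 = c'.2 ∧ 2 ≤ g ∧ 2 ≤ g')) := by
  rw [← gb_iff]
  simp [nT]

theorem gb_symm (c c' : Bool × ℕ) (g g' : ℕ) : gb c c' g g' = gb c' c g' g := by
  unfold gb
  rw [show decide (c = c') = decide (c' = c) by simp [eq_comm],
    show decide (c.1 = c'.1) = decide (c'.1 = c.1) by simp [eq_comm],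
    show decide (c.2 = c'.2) = decide (c'.2 = c.2) by simp [eq_comm],
    show decide (g = g') = decide (g' = g) by simp [eq_comm],
    Bool.or_comm (decide (g = 1)), Bool.and_comm (decide (g = 0)),
    Bool.and_comm (decide (2 ≤ g))]

theorem nT_symm (hsym : ∀ x y, T x y = T y x) (x y : NL α) : nT T x y = nT T y x := by
  rw [Bool.eq_iff_iff]
  rcases x with ⟨c, a | ⟨q, g⟩⟩ <;> rcases y with ⟨c', a' | ⟨q', g'⟩⟩
  · rw [nT_ll, nT_ll, hsym, eq_comm]
  · rw [nT_lr, nT_rl, eq_comm]
  · rw [nT_lr, nT_rl, eq_comm]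
  · rw [nT_rr, nT_rr, ← gb_iff, ← gb_iff, gb_symm, eq_comm]

theorem nT_irr (hirr : ∀ x ∈ S, T x x = false) (x : NL α) (hx : x ∈ nS S δ R) :
    nT T x x = false := by
  rw [← Bool.not_eq_true]
  rcases x with ⟨c, a | ⟨q, g⟩⟩
  · rw [nT_ll]
    rw [nS, mem_product, inl_mem_disjSum] at hx
    rw [hirr a hx.2]
    simp
  · rw [nT_rr]
    simp

omit [DecidableEq α] in
theorem mem_nS_l {c : Bool × ℕ} {a : α} : (c, Sum.inl a) ∈ nS S δ R ↔ c.2 < R - 1 ∧ a ∈ S := by
  rw [nS, mem_product, inl_mem_disjSum, mem_product, mem_range]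
  simp

omit [DecidableEq α] in
theorem mem_nS_r {c : Bool × ℕ} {q : α × ℕ} {g : ℕ} :
    (c, Sum.inr (q, g)) ∈ nS S δ R ↔ c.2 < R - 1 ∧ q ∈ fF S δ R ∧ g < R + 1 := by
  rw [nS, mem_product, inr_mem_disjSum, mem_product, mem_range, mem_product, mem_range]
  simp

omit [DecidableEq α] in
theorem nS_card : (nS S δ R).card =
    2 * (R - 1) * (S.card + (fF S δ R).card * (R + 1)) := by
  rw [nS, card_product, card_product, card_disjSum, card_product, card_range, card_range,
    Finset.card_univ, Fintype.card_bool]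

theorem nS_reg (hR : 3 ≤ R) (hδ : ∀ y ∈ S, nb T S y + δ y = R) (x : NL α) (hx : x ∈ nS S δ R) :
    nb (nT T) (nS S δ R) x = R := by
  rcases x with ⟨c, a | ⟨⟨a, κ⟩, g⟩⟩
  · rw [mem_nS_l] at hx
    have h1 : (nS S δ R).filter (fun z => nT T (c, Sum.inl a) z = true) =
        (disjSum (S.filter fun z => T a z = true)
          ((range (δ a)).image fun t => ((a, t), 0))).image fun z => (c, z) := by
      ext ⟨c', a' | ⟨⟨a', κ'⟩, g'⟩⟩
      · rw [mem_filter, mem_nS_l, nT_ll, mem_image]
        constructor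
        · rintro ⟨h1, rfl, h2⟩
          exact ⟨Sum.inl a', inl_mem_disjSum.2 (mem_filter.2 ⟨h1.2, h2⟩), rfl⟩
        · rintro ⟨z, hz, h⟩
          rw [Prod.mk.injEq] at h
          obtain ⟨rfl, rfl⟩ := h
          rw [inl_mem_disjSum, mem_filter] at hz
          exact ⟨⟨hx.1, hz.1⟩, rfl, hz.2⟩
      · rw [mem_filter, mem_nS_r, nT_lr, mem_image, mem_fF]
        constructor
        · rintro ⟨⟨h1, h2, h3⟩, rfl, h4, rfl⟩
          simp only at h4
          subst h4
          exact ⟨Sum.inr ((a, κ'), 0), inr_mem_disjSum.2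
            (mem_image.2 ⟨κ', mem_range.2 h2.2, rfl⟩), rfl⟩
        · rintro ⟨z, hz, h⟩
          rw [Prod.mk.injEq] at h
          obtain ⟨rfl, rfl⟩ := h
          rw [inr_mem_disjSum, mem_image] at hz
          obtain ⟨t, ht, h⟩ := hz
          rw [Prod.mk.injEq, Prod.mk.injEq] at h
          obtain ⟨⟨rfl, rfl⟩, rfl⟩ := h
          rw [mem_range] at ht
          have := hδ a hx.2
          exact ⟨⟨hx.1, ⟨⟨hx.2, by omega⟩, ht⟩, by omega⟩, rfl, rfl, rfl⟩
    rw [nb, h1, card_image_of_injective _ (fun a b h => (Prod.mk.inj h).2), card_disjSum,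
      card_image_of_injective _ (fun a b h => (Prod.mk.inj (Prod.mk.inj h).1).2), card_range]
    exact hδ a hx.2
  · rw [mem_nS_r] at hx
    obtain ⟨hx1, hx2, hx3⟩ := hx
    obtain ⟨b, i⟩ := c
    simp only at hx1
    by_cases hg0 : g = 0
    · subst hg0
      have h1 : (nS S δ R).filter (fun z => nT T ((b, i), Sum.inr ((a, κ), 0)) z = true) =
          insert ((b, i), Sum.inl a) (insert ((b, i), Sum.inr ((a, κ), 1))
            (((range (R - 1)).erase i).image fun i' => ((b, i'), Sum.inr ((a, κ), 0)))) := by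
        ext ⟨c', a' | ⟨q', g'⟩⟩
        · rw [mem_filter, mem_nS_l, nT_rl, mem_insert, mem_insert, mem_image]
          constructor
          · rintro ⟨h1, h2, h3, -⟩
            left
            simp only at h3
            rw [h2, h3]
          · rintro (h | h | ⟨i', hi', h⟩)
            · obtain ⟨h', h''⟩ := Prod.mk.inj h
              rw [h', Sum.inl.inj h'']
              exact ⟨⟨hx1, (mem_fF.1 hx2).1.1⟩, rfl, rfl, rfl⟩
            · exact absurd (Prod.mk.inj h).2 (by simp)
            · exact absurd (Prod.mk.inj h).2 (by simp)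
        · rw [mem_filter, mem_nS_r, nT_rr, mem_insert, mem_insert, mem_image]
          constructor
          · rintro ⟨⟨h1, h2, h3⟩, rfl, h4 | h4 | h4⟩
            · right; left
              obtain ⟨rfl, h4, h5⟩ := h4
              have : g' = 1 := by omega
              rw [this]
            · right; right
              obtain ⟨h4, h5, -, rfl⟩ := h4
              simp only at h4 h5
              refine ⟨c'.2, mem_erase.2 ⟨fun h => h5 h.symm, mem_range.2 h1⟩, ?_⟩
              rw [h4]
            · omega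
          · rintro (h | h | ⟨i', hi', h⟩)
            · exact absurd (Prod.mk.inj h).2 (by simp)
            · obtain ⟨h', h''⟩ := Prod.mk.inj h
              have h3 := Prod.mk.inj (Sum.inr.inj h'')
              rw [h', h3.1, h3.2]
              exact ⟨⟨hx1, hx2, by omega⟩, rfl, Or.inl ⟨rfl, Or.inr rfl, by omega⟩⟩
            · obtain ⟨h', h''⟩ := Prod.mk.inj h
              have h3 := Prod.mk.inj (Sum.inr.inj h'')
              rw [← h', ← h3.1, ← h3.2]
              rw [mem_erase, mem_range] at hi'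
              exact ⟨⟨hi'.2, hx2, by omega⟩, rfl, Or.inr (Or.inl ⟨rfl, hi'.1.symm, rfl, rfl⟩)⟩
      rw [nb, h1, card_insert_of_notMem, card_insert_of_notMem, card_image_of_injective,
        card_erase_of_mem (mem_range.2 hx1), card_range]
      · omega
      · intro i1 i2 h
        exact (Prod.mk.inj (Prod.mk.inj h).1).2
      · rw [mem_image]
        rintro ⟨i', -, h⟩
        have := (Prod.mk.inj (Sum.inr.inj (Prod.mk.inj h).2)).2
        omega
      · rw [mem_insert, mem_image]
        rintro (h | ⟨i', -, h⟩)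
        · exact absurd (Prod.mk.inj h).2 (by simp)
        · exact absurd (Prod.mk.inj h).2 (by simp)
    · by_cases hg1 : g = 1
      · subst hg1
        have h1 : (nS S δ R).filter (fun z => nT T ((b, i), Sum.inr ((a, κ), 1)) z = true) =
            ((range (R + 1)).erase 1).image fun g' => ((b, i), Sum.inr ((a, κ), g')) := by
          ext ⟨c', a' | ⟨q', g'⟩⟩
          · rw [mem_filter, mem_nS_l, nT_rl, mem_image]
            constructor
            · rintro ⟨-, -, -, h⟩
              omega
            · rintro ⟨g', -, h⟩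
              exact absurd (Prod.mk.inj h).2 (by simp)
          · rw [mem_filter, mem_nS_r, nT_rr, mem_image]
            constructor
            · rintro ⟨⟨h1, h2, h3⟩, rfl, h4 | h4 | h4⟩
              · obtain ⟨rfl, -, h4⟩ := h4
                exact ⟨g', mem_erase.2 ⟨fun h => h4 h.symm, mem_range.2 h3⟩, rfl⟩
              · omega
              · omega
            · rintro ⟨g'', hg, h⟩
              obtain ⟨h', h''⟩ := Prod.mk.inj h
              have h3 := Prod.mk.inj (Sum.inr.inj h'')
              rw [← h', ← h3.1, ← h3.2]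
              rw [mem_erase, mem_range] at hg
              exact ⟨⟨hx1, hx2, hg.2⟩, rfl, Or.inl ⟨rfl, Or.inl rfl, hg.1.symm⟩⟩
        rw [nb, h1, card_image_of_injective, card_erase_of_mem (mem_range.2 (by omega)),
          card_range]
        · omega
        · intro g1 g2 h
          exact (Prod.mk.inj (Sum.inr.inj (Prod.mk.inj h).2)).2
      · have h1 : (nS S δ R).filter (fun z => nT T ((b, i), Sum.inr ((a, κ), g)) z = true) =
            insert ((b, i), Sum.inr ((a, κ), 1))
              ((Ico 2 (R + 1)).image fun g' => ((!b, i), Sum.inr ((a, κ), g'))) := by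
          ext ⟨c', a' | ⟨q', g'⟩⟩
          · rw [mem_filter, mem_nS_l, nT_rl, mem_insert, mem_image]
            constructor
            · rintro ⟨-, -, -, h⟩
              omega
            · rintro (h | ⟨g', -, h⟩)
              · exact absurd (Prod.mk.inj h).2 (by simp)
              · exact absurd (Prod.mk.inj h).2 (by simp)
          · rw [mem_filter, mem_nS_r, nT_rr, mem_insert, mem_image]
            constructor
            · rintro ⟨⟨h1, h2, h3⟩, rfl, h4 | h4 | h4⟩
              · obtain ⟨rfl, h4, h5⟩ := h4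
                left
                have : g' = 1 := by omega
                rw [this]
              · omega
              · obtain ⟨h4, h5, h6, h7⟩ := h4
                simp only at h4 h5
                right
                refine ⟨g', mem_Ico.2 ⟨h7, h3⟩, ?_⟩
                have : c'.1 = !b := by
                  cases b <;> cases hc : c'.1 <;> simp_all
                rw [← this, h5]
            · rintro (h | ⟨g'', hg, h⟩)
              · obtain ⟨h', h''⟩ := Prod.mk.inj h
                have h3 := Prod.mk.inj (Sum.inr.inj h'')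
                rw [h', h3.1, h3.2]
                exact ⟨⟨hx1, hx2, by omega⟩, rfl, Or.inl ⟨rfl, Or.inr rfl, hg1⟩⟩
              · obtain ⟨h', h''⟩ := Prod.mk.inj h
                have h3 := Prod.mk.inj (Sum.inr.inj h'')
                rw [← h', ← h3.1, ← h3.2]
                rw [mem_Ico] at hg
                refine ⟨⟨hx1, hx2, hg.2⟩, rfl, Or.inr (Or.inr ⟨?_, rfl, by omega, hg.1⟩)⟩
                cases b <;> simp
        rw [nb, h1, card_insert_of_notMem, card_image_of_injective, Nat.card_Ico]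
        · omega
        · intro g1 g2 h
          exact (Prod.mk.inj (Sum.inr.inj (Prod.mk.inj h).2)).2
        · rw [mem_image]
          rintro ⟨g', -, h⟩
          have := (Prod.mk.inj (Prod.mk.inj h).1).1
          cases b <;> simp at this

theorem neut_le {D0 : Finset α} (hD0 : D0 ⊆ S) (h : DomL S T D0) :
    ∃ D ⊆ nS S δ R, DomL (nS S δ R) (nT T) D ∧
      D.card = 2 * (R - 1) * (D0.card + (fF S δ R).card) := by
  by_cases hR : R = 0
  · subst hR
    refine ⟨∅, empty_subset _, ?_, by simp⟩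
    intro x hx
    simp [nS] at hx
  refine ⟨((univ : Finset Bool) ×ˢ range (R - 1)) ×ˢ disjSum D0 (fF S δ R ×ˢ {1}), ?_, ?_, ?_⟩
  · intro x hx
    rcases x with ⟨c, a | ⟨q, g⟩⟩
    · simp only [mem_product, inl_mem_disjSum] at hx
      simp only [nS, mem_product, inl_mem_disjSum]
      exact ⟨hx.1, hD0 hx.2⟩
    · simp only [mem_product, inr_mem_disjSum, mem_singleton] at hx
      simp only [nS, mem_product, inr_mem_disjSum, mem_range]
      simp only [mem_range] at hx
      exact ⟨hx.1, hx.2.1, by omega⟩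
  · rintro ⟨c, a | ⟨q, g⟩⟩ hx
    · simp only [nS, mem_product, inl_mem_disjSum] at hx
      rcases h a hx.2 with h1 | ⟨y, hy, hT⟩
      · left
        simp only [mem_product, inl_mem_disjSum]
        exact ⟨hx.1, h1⟩
      · right
        refine ⟨(c, Sum.inl y), ?_, nT_ll.2 ⟨rfl, hT⟩⟩
        simp only [mem_product, inl_mem_disjSum]
        exact ⟨hx.1, hy⟩
    · simp only [nS, mem_product, inr_mem_disjSum] at hx
      by_cases hg : g = 1
      · left
        simp only [mem_product, inr_mem_disjSum, mem_singleton]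
        exact ⟨hx.1, hx.2.1, hg⟩
      · right
        refine ⟨(c, Sum.inr (q, 1)), ?_, nT_rr.2 ⟨rfl, Or.inl ⟨rfl, Or.inr rfl, hg⟩⟩⟩
        simp only [mem_product, inr_mem_disjSum, mem_singleton]
        exact ⟨hx.1, hx.2.1, trivial⟩
  · rw [card_product, card_product, card_disjSum, card_product, card_singleton, mul_one,
      card_range, Finset.card_univ, Fintype.card_bool]

section

variable {D : Finset (NL α)}

/-- the part of a block -/
def wB (D : Finset (NL α)) (R : ℕ) (c : Bool × ℕ) (q : α × ℕ) : Finset ℕ :=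
  (range R).filter fun g => (c, Sum.inr (q, g + 1)) ∈ D

theorem mem_wB {c : Bool × ℕ} {q : α × ℕ} {g : ℕ} :
    g ∈ wB D R c q ↔ g < R ∧ (c, Sum.inr (q, g + 1)) ∈ D := by
  rw [wB, mem_filter, mem_range]

theorem wB_two (hR : 3 ≤ R) (hD : D ⊆ nS S δ R) (hdom : DomL (nS S δ R) (nT T) D) {b : Bool}
    {i : ℕ} (hi : i < R - 1) {q : α × ℕ} (hq : q ∈ fF S δ R) (h0 : wB D R (b, i) q = ∅) :
    2 ≤ (wB D R (!b, i) q).card := by
  have hno : ∀ g, g < R → ((b, i), Sum.inr (q, g + 1)) ∉ D := by
    intro g hg h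
    have : g ∈ wB D R (b, i) q := mem_wB.2 ⟨hg, h⟩
    rw [h0] at this
    simp at this
  have hbb : ∀ b' : Bool, b ≠ b' → b' = !b := by
    intro b' h
    cases b <;> cases b' <;> simp_all
  have hbb' : ∀ b' : Bool, (!b) ≠ b' → b' = b := by
    intro b' h
    cases b <;> cases b' <;> simp_all
  -- a leaf of the other side
  have h1 : ∃ g', 2 ≤ g' ∧ g' < R + 1 ∧ ((!b, i), Sum.inr (q, g')) ∈ D := by
    rcases hdom ((b, i), Sum.inr (q, 2)) (mem_nS_r.2 ⟨hi, hq, by omega⟩) with h | ⟨y, hy, hT⟩
    · exact absurd h (hno 1 (by omega))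
    · rcases y with ⟨⟨b', i'⟩, a' | ⟨q', g'⟩⟩
      · rw [nT_rl] at hT
        omega
      · have hm := mem_nS_r.1 (hD hy)
        rw [nT_rr] at hT
        obtain ⟨rfl, h | h | h⟩ := hT
        · obtain ⟨h1, h2, h3⟩ := h
          rw [Prod.mk.injEq] at h1
          obtain ⟨rfl, rfl⟩ := h1
          have : g' = 0 + 1 := by omega
          rw [this] at hy
          exact absurd hy (hno 0 (by omega))
        · omega
        · obtain ⟨h1, h2, h3, h4⟩ := h
          simp only at h1 h2
          rw [hbb b' h1, ← h2] at hy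
          exact ⟨g', h4, hm.2.2, hy⟩
  obtain ⟨g', hg2, hgR, hg'⟩ := h1
  -- a second leaf
  obtain ⟨l, hl2, hlR, hlg⟩ : ∃ l, 2 ≤ l ∧ l < R + 1 ∧ l ≠ g' := by
    by_cases h : g' = 2
    · exact ⟨3, by omega, by omega, by omega⟩
    · exact ⟨2, by omega, by omega, fun h' => h h'.symm⟩
  have h2 : ∃ g'' ∈ wB D R (!b, i) q, g'' ≠ g' - 1 := by
    rcases hdom ((!b, i), Sum.inr (q, l)) (mem_nS_r.2 ⟨hi, hq, by omega⟩) with h | ⟨y, hy, hT⟩
    · refine ⟨l - 1, mem_wB.2 ⟨by omega, ?_⟩, by omega⟩
      rwa [show l - 1 + 1 = l by omega]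
    · rcases y with ⟨⟨b', i'⟩, a' | ⟨q', g''⟩⟩
      · rw [nT_rl] at hT
        omega
      · have hm := mem_nS_r.1 (hD hy)
        rw [nT_rr] at hT
        obtain ⟨rfl, h | h | h⟩ := hT
        · obtain ⟨h1, h2, h3⟩ := h
          rw [Prod.mk.injEq] at h1
          have : g'' = 0 + 1 := by omega
          rw [this, ← h1.1, ← h1.2] at hy
          exact ⟨0, mem_wB.2 ⟨by omega, hy⟩, by omega⟩
        · omega
        · obtain ⟨h1, h2, h3, h4⟩ := h
          simp only at h1 h2
          rw [hbb' b' h1, ← h2] at hy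
          exact absurd (by rwa [show g'' - 1 + 1 = g'' by omega]) (hno (g'' - 1) (by omega))
  obtain ⟨g'', hg'', hne⟩ := h2
  have h3 : ({g'', g' - 1} : Finset ℕ) ⊆ wB D R (!b, i) q := by
    intro u hu
    rw [mem_insert, mem_singleton] at hu
    rcases hu with rfl | rfl
    · exact hg''
    · refine mem_wB.2 ⟨by omega, ?_⟩
      rwa [show g' - 1 + 1 = g' by omega]
  have := card_le_card h3
  rwa [card_pair hne] at this

theorem wB_sum (hR : 3 ≤ R) (hD : D ⊆ nS S δ R) (hdom : DomL (nS S δ R) (nT T) D)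
    {i : ℕ} (hi : i < R - 1) {q : α × ℕ} (hq : q ∈ fF S δ R) :
    2 ≤ (wB D R (false, i) q).card + (wB D R (true, i) q).card := by
  by_cases h0 : wB D R (false, i) q = ∅
  · have := wB_two hR hD hdom hi hq h0
    simp only [Bool.not_false] at this
    omega
  · by_cases h1 : wB D R (true, i) q = ∅
    · have := wB_two hR hD hdom hi hq h1
      simp only [Bool.not_true] at this
      omega
    · have h2 := card_pos.2 (nonempty_iff_ne_empty.2 h0)
      have h3 := card_pos.2 (nonempty_iff_ne_empty.2 h1)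
      omega

/-- the dominating set of a copy -/
def dC (S : Finset α) (δ : α → ℕ) (D : Finset (NL α)) (R : ℕ) (c : Bool × ℕ) : Finset α :=
  (S.filter fun a => (c, Sum.inl a) ∈ D) ∪
    ((fF S δ R).filter fun q => (c, Sum.inr (q, 0)) ∈ D).image Prod.fst

theorem fiber_ge (c : Bool × ℕ) :
    (dC S δ D R c).card + ∑ q ∈ fF S δ R, (wB D R c q).card ≤
      (D.filter fun x => x.1 = c).card := by
  set V : Finset ((α × ℕ) × ℕ) := (fF S δ R ×ˢ range (R + 1)).filter
    fun p => (c, Sum.inr p) ∈ D with hV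
  have h1 : (disjSum (S.filter fun a => (c, Sum.inl a) ∈ D) V).image (fun z => (c, z)) ⊆
      D.filter fun x => x.1 = c := by
    intro x hx
    obtain ⟨z, hz, rfl⟩ := mem_image.1 hx
    rw [mem_filter]
    refine ⟨?_, rfl⟩
    rcases z with z | z
    · rw [inl_mem_disjSum] at hz
      exact (mem_filter.1 hz).2
    · rw [inr_mem_disjSum] at hz
      exact (mem_filter.1 hz).2
  have h2 := card_le_card h1
  rw [card_image_of_injective _ (fun a b h => (Prod.mk.inj h).2), card_disjSum] at h2
  have h3 : V.card = ((fF S δ R).filter fun q => (c, Sum.inr (q, 0)) ∈ D).card +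
      ∑ q ∈ fF S δ R, (wB D R c q).card := by
    rw [hV, card_filter, sum_product, card_filter, ← sum_add_distrib]
    refine sum_congr rfl fun q _ => ?_
    rw [sum_range_succ', wB, card_filter, add_comm]
  have h4 := card_union_le (S.filter fun a => (c, Sum.inl a) ∈ D)
    (((fF S δ R).filter fun q => (c, Sum.inr (q, 0)) ∈ D).image Prod.fst)
  have h5 := card_image_le (s := (fF S δ R).filter fun q => (c, Sum.inr (q, 0)) ∈ D)
    (f := Prod.fst)
  rw [dC]
  refine le_trans ?_ (h2.trans (le_of_eq ?_))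
  · omega
  · congr

theorem neut_ge (hR : 3 ≤ R) (hD : D ⊆ nS S δ R) (hdom : DomL (nS S δ R) (nT T) D) {q m : ℕ}
    (hm : D.card + 2 * (R - 1) * m ≤ 2 * (R - 1) * (q + (fF S δ R).card)) :
    ∃ D0 ⊆ S, DomL S T D0 ∧ D0.card + m ≤ q := by
  by_contra hcon
  push Not at hcon
  have h1 : ∀ c ∈ (univ : Finset Bool) ×ˢ range (R - 1), q + 1 ≤ (dC S δ D R c).card + m := by
    intro c hc
    rw [mem_product, mem_range] at hc
    refine hcon (dC S δ D R c) ?_ ?_
    · intro a ha
      rw [dC, mem_union, mem_filter, mem_image] at ha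
      rcases ha with ha | ⟨p, hp, rfl⟩
      · exact ha.1
      · exact (mem_fF.1 (mem_filter.1 hp).1).1.1
    · intro a ha
      rw [dC]
      simp only [mem_union, mem_filter, mem_image]
      rcases hdom (c, Sum.inl a) (mem_nS_l.2 ⟨hc.2, ha⟩) with h | ⟨y, hy, hT⟩
      · exact Or.inl (Or.inl ⟨ha, h⟩)
      · rcases y with ⟨c', a' | ⟨p, g⟩⟩
        · rw [nT_ll] at hT
          obtain ⟨rfl, hT⟩ := hT
          exact Or.inr ⟨a', Or.inl ⟨(mem_nS_l.1 (hD hy)).2, hy⟩, hT⟩
        · rw [nT_lr] at hT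
          obtain ⟨rfl, rfl, rfl⟩ := hT
          exact Or.inl (Or.inr ⟨p, ⟨(mem_nS_r.1 (hD hy)).2.1, hy⟩, rfl⟩)
  have h2 : D.card = ∑ c ∈ (univ : Finset Bool) ×ˢ range (R - 1),
      (D.filter fun x => x.1 = c).card :=
    card_eq_sum_card_fiberwise fun x hx => (mem_product.1 (hD hx)).1
  have h3 : ∑ c ∈ (univ : Finset Bool) ×ˢ range (R - 1), ((dC S δ D R c).card +
      ∑ q ∈ fF S δ R, (wB D R c q).card) ≤ D.card := by
    rw [h2]
    exact sum_le_sum fun c _ => fiber_ge c
  rw [sum_add_distrib] at h3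
  have h4 : 2 * (R - 1) * (fF S δ R).card ≤ ∑ c ∈ (univ : Finset Bool) ×ˢ range (R - 1),
      ∑ q ∈ fF S δ R, (wB D R c q).card := by
    rw [sum_product, Fintype.sum_bool, ← sum_add_distrib]
    have h5 : ∀ i ∈ range (R - 1), 2 * (fF S δ R).card ≤
        ∑ q ∈ fF S δ R, (wB D R (true, i) q).card +
          ∑ q ∈ fF S δ R, (wB D R (false, i) q).card := by
      intro i hi
      rw [mem_range] at hi
      rw [← sum_add_distrib]
      have h6 : ∀ q ∈ fF S δ R, 2 ≤ (wB D R (true, i) q).card + (wB D R (false, i) q).card := by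
        intro q hq
        have := wB_sum hR hD hdom hi hq
        omega
      have := card_nsmul_le_sum _ _ _ h6
      rw [smul_eq_mul, mul_comm] at this
      exact this
    have := card_nsmul_le_sum _ _ _ h5
    rw [smul_eq_mul, card_range] at this
    refine le_trans (le_of_eq ?_) this
    ring
  have h5 := card_nsmul_le_sum _ _ _ h1
  rw [sum_add_distrib, sum_const, smul_eq_mul, card_product, card_range, Finset.card_univ,
    Fintype.card_bool, smul_eq_mul] at h5
  have h6 : 2 * (R - 1) * (q + 1) = 2 * (R - 1) * q + 2 * (R - 1) := by ring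
  have h7 : 2 * (R - 1) * (q + (fF S δ R).card) =
    2 * (R - 1) * q + 2 * (R - 1) * (fF S δ R).card := by ring
  omega

end

end Pool.Agent.R538.KI
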