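import Mathlib
import Pool.Agent.R538.KI.Base

/-!
Attaching leaves.
-/

set_option autoImplicit false

namespace Pool.Agent.R538.KI

open Finset

variable {β : Type} [DecidableEq β]

/-- every vertex gets `k - 1` leaves -/
def lS (S : Finset β) (k : ℕ) : Finset (β × ℕ) := S ×ˢ range k

/-- adjacency -/
def lT (T : β → β → Bool) (x y : β × ℕ) : Bool :=
  (decide (x.2 = 0) && (decide (y.2 = 0) && T x.1 y.1)) ||
    (decide (x.1 = y.1) && ((decide (x.2 = 0) && !decide (y.2 = 0)) ||
      (!decide (x.2 = 0) && decide (y.2 = 0))))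

variable {S : Finset β} {T : β → β → Bool} {k : ℕ}

theorem lT_iff (x y : β × ℕ) : lT T x y = true ↔
    (x.2 = 0 ∧ y.2 = 0 ∧ T x.1 y.1 = true) ∨
      (x.1 = y.1 ∧ ((x.2 = 0 ∧ y.2 ≠ 0) ∨ (x.2 ≠ 0 ∧ y.2 = 0))) := by
  simp [lT]

theorem lT_symm (hsym : ∀ x y, T x y = T y x) (x y : β × ℕ) : lT T x y = lT T y x := by
  rw [Bool.eq_iff_iff, lT_iff, lT_iff, hsym y.1 x.1]
  constructor
  · rintro (⟨h1, h2, h3⟩ | ⟨h1, h2 | h2⟩)
    · exact Or.inl ⟨h2, h1, h3⟩
    · exact Or.inr ⟨h1.symm, Or.inr ⟨h2.2, h2.1⟩⟩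
    · exact Or.inr ⟨h1.symm, Or.inl ⟨h2.2, h2.1⟩⟩
  · rintro (⟨h1, h2, h3⟩ | ⟨h1, h2 | h2⟩)
    · exact Or.inl ⟨h2, h1, h3⟩
    · exact Or.inr ⟨h1.symm, Or.inr ⟨h2.2, h2.1⟩⟩
    · exact Or.inr ⟨h1.symm, Or.inl ⟨h2.2, h2.1⟩⟩

theorem lT_irr (hirr : ∀ x ∈ S, T x x = false) (x : β × ℕ) (hx : x ∈ lS S k) :
    lT T x x = false := by
  rw [← Bool.not_eq_true, lT_iff]
  rw [lS, mem_product] at hx
  rw [hirr _ hx.1]
  simp

theorem leaf_deg0 (hk : 1 ≤ k) {x : β} (hx : x ∈ S) :
    nb (lT T) (lS S k) (x, 0) = nb T S x + (k - 1) := by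
  have h1 : (lS S k).filter (fun y => lT T (x, 0) y = true) =
      (S.filter fun z => T x z = true).image (fun z => (z, 0)) ∪
        (Ico 1 k).image fun l => (x, l) := by
    ext ⟨y, l⟩
    rw [mem_filter, lS, mem_product, lT_iff, mem_union, mem_image, mem_image, mem_range]
    constructor
    · rintro ⟨⟨h1, h2⟩, ⟨-, h3, h4⟩ | ⟨h3, h4⟩⟩
      · left
        simp only at h3 h4 h1
        subst h3
        exact ⟨y, mem_filter.2 ⟨h1, h4⟩, rfl⟩
      · right
        simp only at h3 h4 h2
        subst h3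
        refine ⟨l, mem_Ico.2 ⟨by omega, h2⟩, rfl⟩
    · rintro (⟨z, hz, h⟩ | ⟨l', hl, h⟩)
      · rw [Prod.mk.injEq] at h
        obtain ⟨rfl, rfl⟩ := h
        rw [mem_filter] at hz
        exact ⟨⟨hz.1, by simp only; omega⟩, Or.inl ⟨rfl, rfl, hz.2⟩⟩
      · rw [Prod.mk.injEq] at h
        obtain ⟨rfl, rfl⟩ := h
        rw [mem_Ico] at hl
        exact ⟨⟨hx, hl.2⟩, Or.inr ⟨rfl, Or.inl ⟨rfl, by simp only; omega⟩⟩⟩
  rw [nb, h1, card_union_of_disjoint, card_image_of_injective _ (fun a b h => (Prod.mk.inj h).1),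
    card_image_of_injective _ (fun a b h => (Prod.mk.inj h).2), Nat.card_Ico]
  · rfl
  · rw [disjoint_left]
    intro z hz hz'
    obtain ⟨a, -, rfl⟩ := mem_image.1 hz
    obtain ⟨l, hl, h⟩ := mem_image.1 hz'
    rw [mem_Ico] at hl
    have := (Prod.mk.inj h).2
    omega

theorem leaf_deg1 (hk : 1 ≤ k) {x : β} (hx : x ∈ S) {l : ℕ} (hl : l ≠ 0) :
    nb (lT T) (lS S k) (x, l) = 1 := by
  have h1 : (lS S k).filter (fun y => lT T (x, l) y = true) = {(x, 0)} := by
    ext ⟨y, l'⟩
    rw [mem_filter, lS, mem_product, lT_iff, mem_singleton, mem_range, Prod.mk.injEq]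
    constructor
    · rintro ⟨⟨h1, h2⟩, ⟨h0, -⟩ | ⟨h3, h4⟩⟩
      · exact absurd h0 hl
      · simp only at h3 h4
        exact ⟨h3.symm, by omega⟩
    · rintro ⟨rfl, rfl⟩
      exact ⟨⟨hx, by simp only; omega⟩, Or.inr ⟨rfl, Or.inr ⟨hl, rfl⟩⟩⟩
  rw [nb, h1, card_singleton]

theorem leaf_le (hk : 1 ≤ k) {m : ℕ} (h : Al S T 1 m) :
    Al (lS S k) (lT T) k ((k - 1) * S.card + m) := by
  obtain ⟨A, hA, hK, hm⟩ := h
  refine ⟨A.image (fun x => (x, 0)) ∪ S ×ˢ Ico 1 k, ?_, ?_, ?_⟩
  · intro z hz
    rw [mem_union, mem_product, mem_Ico] at hz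
    rw [lS, mem_product, mem_range]
    rcases hz with hz | hz
    · obtain ⟨x, hx, rfl⟩ := mem_image.1 hz
      exact ⟨hA hx, by simp only; omega⟩
    · exact ⟨hz.1, hz.2.2⟩
  · rintro ⟨x, l⟩ hz
    rw [mem_union, mem_product, mem_Ico] at hz
    by_cases hl : l = 0
    · subst hl
      have hx : x ∈ A := by
        rcases hz with hz | hz
        · obtain ⟨x', hx', h⟩ := mem_image.1 hz
          rw [← (Prod.mk.inj h).1]
          exact hx'
        · have := hz.2.1
          simp only at this
          omega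
      have h1 : (A.image (fun x => (x, 0)) ∪ S ×ˢ Ico 1 k).filter
          (fun y => lT T (x, 0) y = true) ⊆
          (A.filter fun z => T x z = true).image (fun z => (z, 0)) ∪
            (Ico 1 k).image fun l => (x, l) := by
        rintro ⟨y, l⟩ hy
        rw [mem_filter, mem_union, mem_product, lT_iff, mem_Ico] at hy
        rw [mem_union, mem_image, mem_image]
        obtain ⟨h1, h2⟩ := hy
        rcases h2 with ⟨-, h3, h4⟩ | ⟨h3, h4⟩
        · left
          simp only at h3 h4 h1
          subst h3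
          refine ⟨y, mem_filter.2 ⟨?_, h4⟩, rfl⟩
          rcases h1 with h1 | h1
          · obtain ⟨x', hx', h⟩ := mem_image.1 h1
            rw [← (Prod.mk.inj h).1]
            exact hx'
          · omega
        · right
          simp only at h3 h4 h1
          subst h3
          refine ⟨l, mem_Ico.2 ⟨by omega, ?_⟩, rfl⟩
          rcases h1 with h1 | h1
          · obtain ⟨x', hx', h⟩ := mem_image.1 h1
            have := (Prod.mk.inj h).2
            omega
          · exact h1.2.2
      have h2 := card_le_card h1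
      have h3 := card_union_le ((A.filter fun z => T x z = true).image fun z => (z, 0))
        ((Ico 1 k).image fun l => (x, l))
      have h4 := card_image_le (s := A.filter fun z => T x z = true) (f := fun z => (z, 0))
      have h5 := card_image_le (s := Ico 1 k) (f := fun l => (x, l))
      have h6 := hK x hx
      rw [Nat.card_Ico] at h5
      rw [nb] at h6 ⊢
      omega
    · refine le_trans ?_ hk
      have h1 : (A.image (fun x => (x, 0)) ∪ S ×ˢ Ico 1 k).filter
          (fun y => lT T (x, l) y = true) ⊆ {(x, 0)} := by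
        rintro ⟨y, l'⟩ hy
        rw [mem_filter, lT_iff] at hy
        rw [mem_singleton, Prod.mk.injEq]
        obtain ⟨-, h2⟩ := hy
        simp only at h2
        rcases h2 with h2 | ⟨h2, h3⟩
        · exact absurd h2.1 hl
        · exact ⟨h2.symm, by omega⟩
      have := card_le_card h1
      rwa [card_singleton] at this
  · rw [card_union_of_disjoint, card_image_of_injective _ (fun a b h => (Prod.mk.inj h).1),
      card_product, Nat.card_Ico, mul_comm]
    · omega
    · rw [disjoint_left]
      intro z hz hz'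
      obtain ⟨a, -, rfl⟩ := mem_image.1 hz
      rw [mem_product, mem_Ico] at hz'
      have := hz'.2.1
      simp only at this
      omega

theorem leaf_ge {m : ℕ} (hk : 1 ≤ k) (h : Al (lS S k) (lT T) k ((k - 1) * S.card + m)) :
    Al S T 1 m := by
  obtain ⟨A, hA, hK, hm⟩ := h
  set B : Finset β := S.filter fun x => ∀ l < k, (x, l) ∈ A with hB
  refine ⟨B, filter_subset _ _, ?_, ?_⟩
  · intro x hx
    have hx' := (mem_filter.1 hx).2
    have h0 := hK (x, 0) (hx' 0 (by omega))
    have h1 : (B.filter fun z => T x z = true).image (fun z => (z, 0)) ∪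
        (Ico 1 k).image (fun l => (x, l)) ⊆ A.filter (fun y => lT T (x, 0) y = true) := by
      intro z hz
      rw [mem_union] at hz
      rw [mem_filter, lT_iff]
      rcases hz with hz | hz
      · obtain ⟨y, hy, rfl⟩ := mem_image.1 hz
        rw [mem_filter] at hy
        exact ⟨(mem_filter.1 hy.1).2 0 (by omega), Or.inl ⟨rfl, rfl, hy.2⟩⟩
      · obtain ⟨l, hl, rfl⟩ := mem_image.1 hz
        rw [mem_Ico] at hl
        exact ⟨hx' l hl.2, Or.inr ⟨rfl, Or.inl ⟨rfl, by simp only; omega⟩⟩⟩
    have h2 := card_le_card h1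
    rw [card_union_of_disjoint, card_image_of_injective _ (fun a b h => (Prod.mk.inj h).1),
      card_image_of_injective _ (fun a b h => (Prod.mk.inj h).2), Nat.card_Ico] at h2
    · rw [nb] at h0 ⊢
      omega
    · rw [disjoint_left]
      intro z hz hz'
      obtain ⟨a, -, rfl⟩ := mem_image.1 hz
      obtain ⟨l, hl, h⟩ := mem_image.1 hz'
      rw [mem_Ico] at hl
      have := (Prod.mk.inj h).2
      omega
  · have h1 : A.card = ∑ x ∈ S, (A.filter fun z => z.1 = x).card :=
      card_eq_sum_card_fiberwise fun z hz => (mem_product.1 (hA hz)).1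
    have h2 : ∀ x ∈ S, (A.filter fun z => z.1 = x).card ≤ (k - 1) + if x ∈ B then 1 else 0 := by
      intro x hx
      have h3 : A.filter (fun z => z.1 = x) ⊆
          ((range k).filter fun l => (x, l) ∈ A).image fun l => (x, l) := by
        rintro ⟨y, l⟩ hz
        rw [mem_filter] at hz
        obtain ⟨h4, h5⟩ := hz
        simp only at h5
        subst h5
        have h6 := hA h4
        rw [lS, mem_product] at h6
        exact mem_image.2 ⟨l, mem_filter.2 ⟨h6.2, h4⟩, rfl⟩
      have h4 := (card_le_card h3).trans card_image_le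
      split_ifs with h5
      · have := card_le_card (filter_subset (fun l => (x, l) ∈ A) (range k))
        rw [card_range] at this
        omega
      · have : ∃ l < k, (x, l) ∉ A := by
          by_contra hcon
          push Not at hcon
          exact h5 (mem_filter.2 ⟨hx, hcon⟩)
        obtain ⟨l, hl, hlA⟩ := this
        have h6 : (range k).filter (fun l => (x, l) ∈ A) ⊆ (range k).erase l := by
          intro l' hl'
          rw [mem_filter] at hl'
          rw [mem_erase]
          refine ⟨?_, hl'.1⟩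
          rintro rfl
          exact hlA hl'.2
        have := card_le_card h6
        rw [card_erase_of_mem (mem_range.2 hl), card_range] at this
        omega
    have h3 := sum_le_sum h2
    rw [← h1, sum_add_distrib, sum_const, smul_eq_mul, ← card_filter, mul_comm] at h3
    have h4 : S.filter (fun x => x ∈ B) = B := by
      rw [filter_mem_eq_inter, inter_eq_right]
      exact filter_subset _ _
    rw [h4] at h3
    omega

end Pool.Agent.R538.KI
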