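import Mathlib
import Pool.Agent.R538.KI.CycA
import Pool.Agent.R538.KI.Leaf
import Pool.Agent.R538.KI.Fill
import Pool.Agent.R553.SW.RedPoly

/-!
The reduction for `k + 2 ≤ r`.
-/

set_option autoImplicit false

namespace Pool.Agent.R538.KI

open Finset Pool.Agent.R550.GB Pool.Agent.R538.MS Pool.Agent.H692R2 Pool.Agent.NPC.R542

/-! ### Lists -/

/-- product of lists -/
def prodL {α β : Type} (l : List α) (m : List β) : List (α × β) :=
  l.flatMap fun a => m.map fun b => (a, b)

theorem mem_prodL {α β : Type} {l : List α} {m : List β} {a : α} {b : β} :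
    (a, b) ∈ prodL l m ↔ a ∈ l ∧ b ∈ m := List.mem_product

theorem nodup_prodL {α β : Type} {l : List α} {m : List β} (hl : l.Nodup) (hm : m.Nodup) :
    (prodL l m).Nodup := List.Nodup.product hl hm

/-- disjoint union of lists -/
def sumL {α β : Type} (l : List α) (m : List β) : List (α ⊕ β) :=
  l.map Sum.inl ++ m.map Sum.inr

theorem nodup_sumL {α β : Type} {l : List α} {m : List β} (hl : l.Nodup) (hm : m.Nodup) :
    (sumL l m).Nodup := by
  unfold sumL
  refine List.Nodup.append (hl.map Sum.inl_injective) (hm.map Sum.inr_injective) ?_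
  intro x h1 h2
  obtain ⟨a, -, rfl⟩ := List.mem_map.1 h1
  obtain ⟨b, -, h⟩ := List.mem_map.1 h2
  exact absurd h (by simp)

section

variable {α β : Type} [DecidableEq α] [DecidableEq β]

theorem prodL_toFinset {l : List α} {m : List β} :
    (prodL l m).toFinset = l.toFinset ×ˢ m.toFinset := by
  ext ⟨a, b⟩
  rw [List.mem_toFinset, mem_prodL, mem_product, List.mem_toFinset, List.mem_toFinset]

theorem sumL_toFinset {l : List α} {m : List β} :
    (sumL l m).toFinset = disjSum l.toFinset m.toFinset := by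
  ext x
  rcases x with a | b <;> simp [sumL]

theorem card_toFinset {l : List α} (hl : l.Nodup) : l.toFinset.card = l.length :=
  List.toFinset_card_of_nodup hl

end

/-- the labels of `cS` -/
def cL (n : ℕ) : List (ℕ × ℕ) := prodL (List.range n) (List.range (3 * n + 1))

theorem cL_toFinset (n : ℕ) : (cL n).toFinset = cS n := by
  rw [cL, prodL_toFinset, List.toFinset_range, List.toFinset_range, cS]

theorem cL_nodup (n : ℕ) : (cL n).Nodup := nodup_prodL List.nodup_range List.nodup_range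

/-- the labels of `lS` -/
def lL {β : Type} (l : List β) (k : ℕ) : List (β × ℕ) := prodL l (List.range k)

/-- the labels of `fF` -/
def fFL {β : Type} (l : List β) (δ : β → ℕ) (R : ℕ) : List (β × ℕ) :=
  (prodL l (List.range R)).filter fun p => decide (p.2 < δ p.1)

/-- the labels of `fS` -/
def fL {β : Type} (l : List β) (δ : β → ℕ) (R : ℕ) : List (FL β) :=
  sumL (prodL [false, true] l) (prodL (fFL l δ R) (List.range (R + 1)))

section

variable {β : Type} [DecidableEq β]

theorem lL_toFinset (l : List β) (k : ℕ) : (lL l k).toFinset = lS l.toFinset k := by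
  rw [lL, prodL_toFinset, List.toFinset_range, lS]

omit [DecidableEq β] in
theorem lL_nodup {l : List β} (hl : l.Nodup) (k : ℕ) : (lL l k).Nodup :=
  nodup_prodL hl List.nodup_range

theorem fFL_toFinset (l : List β) (δ : β → ℕ) (R : ℕ) :
    (fFL l δ R).toFinset = fF l.toFinset δ R := by
  rw [fFL, List.toFinset_filter, prodL_toFinset, List.toFinset_range, fF]
  simp only [decide_eq_true_eq]

omit [DecidableEq β] in
theorem fFL_nodup {l : List β} (hl : l.Nodup) (δ : β → ℕ) (R : ℕ) : (fFL l δ R).Nodup :=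
  (nodup_prodL hl List.nodup_range).filter _

theorem fL_toFinset (l : List β) (δ : β → ℕ) (R : ℕ) :
    (fL l δ R).toFinset = fS l.toFinset δ R := by
  rw [fL, sumL_toFinset, prodL_toFinset, prodL_toFinset, fFL_toFinset, List.toFinset_range, fS]
  have : ([false, true] : List Bool).toFinset = univ := by decide
  rw [this]

omit [DecidableEq β] in
theorem fL_nodup {l : List β} (hl : l.Nodup) (δ : β → ℕ) (R : ℕ) : (fL l δ R).Nodup :=
  nodup_sumL (nodup_prodL (by simp) hl) (nodup_prodL (fFL_nodup hl δ R) List.nodup_range)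

end

/-! ### The source problem -/

/-- the edges -/
noncomputable def eB (G : FinGraph) (v w : ℕ) : Bool := adjB G v w && adjB G w v

theorem eB_symm (G : FinGraph) (v w : ℕ) : eB G v w = eB G w v := by
  unfold eB
  rw [Bool.and_comm]

theorem eB_iff (G : FinGraph) (v w : Fin G.n) : eB G v w = true ↔ G.graph.Adj v w := by
  unfold eB
  rw [Bool.and_eq_true, adjB_iff, adjB_iff, G.graph.adj_comm w v, and_self]

theorem hasIndep_iff (I : FinGraph × ℕ) : HasIndep I ↔
    ∃ X, Ind I.1.n (eB I.1) X ∧ I.2 ≤ X.card := by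
  classical
  constructor
  · rintro ⟨S, hS, hc⟩
    refine ⟨S.image Fin.val, ⟨?_, ?_⟩, ?_⟩
    · intro v hv
      obtain ⟨u, -, rfl⟩ := mem_image.1 hv
      exact mem_range.2 u.2
    · intro v hv w hw hvw
      obtain ⟨v, hv', rfl⟩ := mem_image.1 hv
      obtain ⟨w, hw', rfl⟩ := mem_image.1 hw
      rw [← Bool.not_eq_true, eB_iff]
      exact hS (mem_coe.2 hv') (mem_coe.2 hw') (fun h => hvw (by rw [h]))
    · rw [card_image_of_injective _ Fin.val_injective, hc]
  · rintro ⟨X, ⟨hX1, hX2⟩, hc⟩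
    set S : Finset (Fin I.1.n) := univ.filter fun v => (v : ℕ) ∈ X with hS
    have h1 : S.image Fin.val = X := by
      ext v
      rw [mem_image]
      constructor
      · rintro ⟨u, hu, rfl⟩
        exact (mem_filter.1 hu).2
      · intro hv
        exact ⟨⟨v, mem_range.1 (hX1 hv)⟩, mem_filter.2 ⟨mem_univ _, hv⟩, rfl⟩
    have h2 : I.2 ≤ S.card := by
      rw [← card_image_of_injective S Fin.val_injective, h1]
      exact hc
    obtain ⟨S', hS', hc'⟩ := exists_subset_card_eq h2
    refine ⟨S', ?_, hc'⟩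
    intro v hv w hw hvw h
    have h3 := hX2 v (mem_filter.1 (hS' (mem_coe.1 hv))).2 w (mem_filter.1 (hS' (mem_coe.1 hw))).2
      (fun h => hvw (Fin.ext h))
    rw [← Bool.not_eq_true, eB_iff] at h3
    exact h3 h

/-! ### The reduction -/

/-- the missing degrees -/
def dlA (n : ℕ) (E : ℕ → ℕ → Bool) (k R : ℕ) (y : (ℕ × ℕ) × ℕ) : ℕ :=
  if y.2 = 0 then R - (dgA n E y.1 + (k - 1)) else R - 1

/-- the labels -/
def vsA (n : ℕ) (E : ℕ → ℕ → Bool) (k R : ℕ) : List (FL ((ℕ × ℕ) × ℕ)) :=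
  fL (lL (cL n) k) (dlA n E k R) R

/-- the threshold -/
def thA (n : ℕ) (E : ℕ → ℕ → Bool) (k R m : ℕ) : ℕ :=
  2 * ((k - 1) * (n * (3 * n + 1)) + (2 * n * n + m)) +
    (k + 1) * (fFL (lL (cL n) k) (dlA n E k R) R).length

variable {n : ℕ} {E : ℕ → ℕ → Bool} {k R : ℕ}

theorem vsA_nodup : (vsA n E k R).Nodup := fL_nodup (lL_nodup (cL_nodup n) k) _ _

theorem vsA_toFinset : (vsA n E k R).toFinset = fS (lS (cS n) k) (dlA n E k R) R := by
  rw [vsA, fL_toFinset, lL_toFinset, cL_toFinset]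

theorem vsA_symm (hE : ∀ v w, E v w = E w v) (x y : FL ((ℕ × ℕ) × ℕ)) :
    fT (lT (cT n E)) x y = fT (lT (cT n E)) y x := fT_symm (lT_symm (cT_symm hE)) x y

theorem vsA_irr (hn : 1 ≤ n) (x : FL ((ℕ × ℕ) × ℕ)) (hx : x ∈ vsA n E k R) :
    fT (lT (cT n E)) x x = false := by
  rw [← List.mem_toFinset, vsA_toFinset] at hx
  exact fT_irr (fun x hx => lT_irr (fun x _ => cT_irr hn x) x hx) x hx

theorem vsA_reg (hn : 1 ≤ n) (hk : 1 ≤ k) (hR : k + 2 ≤ R) (x : FL ((ℕ × ℕ) × ℕ))
    (hx : x ∈ vsA n E k R) : nb (fT (lT (cT n E))) (vsA n E k R).toFinset x = R := by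
  rw [← List.mem_toFinset] at hx
  rw [vsA_toFinset] at hx ⊢
  refine fS_reg (by omega) ?_ x hx
  rintro ⟨y, l⟩ hy
  rw [lS, mem_product] at hy
  unfold dlA
  by_cases hl : l = 0
  · subst hl
    have h1 := dgA_le (n := n) (E := E) y
    rw [leaf_deg0 hk hy.1, nb_cT hn y hy.1, if_pos rfl]
    simp only
    omega
  · rw [leaf_deg1 hk hy.1 hl, if_neg hl]
    omega

theorem card_cS (n : ℕ) : (cS n).card = n * (3 * n + 1) := by
  rw [cS, card_product, card_range, card_range]

theorem partA (hn : 1 ≤ n) (hE : ∀ v w, E v w = E w v) (hk : 1 ≤ k) (hR : k + 2 ≤ R) (m : ℕ) :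
    RegKMIS k (mkA (vsA n E k R) (fT (lT (cT n E))), thA n E k R m) ↔
      ∃ X, Ind n E X ∧ m ≤ X.card := by
  rw [regKMIS_iff vsA_nodup (vsA_symm hE) (vsA_irr hn) (vsA_reg hn hk hR), vsA_toFinset]
  have h1 : thA n E k R m = 2 * ((k - 1) * (cS n).card + (2 * n * n + m)) +
      (k + 1) * (fF (lS (cS n) k) (dlA n E k R) R).card := by
    rw [thA, card_cS, ← card_toFinset (fFL_nodup (lL_nodup (cL_nodup n) k) _ _), fFL_toFinset,
      lL_toFinset, cL_toFinset]
  rw [h1]
  constructor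
  · intro h
    obtain ⟨A, hA, hK, hm⟩ := leaf_ge hk (fill_ge hk h)
    exact cycA_ge hA hK hn hm
  · rintro ⟨X, hX, hm⟩
    refine fill_le hk hR (leaf_le hk ?_)
    obtain ⟨A, hA, hK, hc⟩ := cycA_le hn hX
    exact ⟨A, hA, hK, by omega⟩

theorem regA (hn : 1 ≤ n) (hE : ∀ v w, E v w = E w v) (hk : 1 ≤ k) (hR : k + 2 ≤ R) :
    IsReg (graph (mkA (vsA n E k R) (fT (lT (cT n E))))) R :=
  isReg_of vsA_nodup (vsA_symm hE) (vsA_irr hn) (vsA_reg hn hk hR)

theorem thA_pos (hn : 1 ≤ n) (m : ℕ) : 1 ≤ thA n E k R m := by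
  have : 1 ≤ 2 * n * n := Nat.mul_pos (by omega) hn
  unfold thA
  omega

end Pool.Agent.R538.KI
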