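import Mathlib
import Pool.Agent.R538.KI.Neut
import Pool.Agent.R538.KI.PartA

/-!
The reduction for `r = k + 1`.
-/

set_option autoImplicit false

namespace Pool.Agent.R538.KI

open Finset Pool.Agent.R550.GB Pool.Agent.R538.MS Pool.Agent.H692R2 Pool.Agent.NPC.R542

instance instDecBL : DecidableEq BL := instDecidableEqSum

instance instDecNB : DecidableEq ((BL × ℕ) × ℕ) := instDecidableEqProd

instance instDecNS : DecidableEq (BL ⊕ ((BL × ℕ) × ℕ)) := instDecidableEqSum

instance instDecNL : DecidableEq (NL BL) := instDecidableEqProd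

/-- the labels of `zF` -/
def zL (n : ℕ) (E : ℕ → ℕ → Bool) : List (ℕ × ℕ) :=
  (prodL (List.range n) (List.range n)).filter fun p => decide (p.1 < p.2) && E p.1 p.2

/-- the labels of `bS` -/
def bL (n : ℕ) (E : ℕ → ℕ → Bool) : List BL := sumL (cL n) (zL n E)

/-- the labels of `nS` -/
def nL {α : Type} (l : List α) (δ : α → ℕ) (R : ℕ) : List (NL α) :=
  prodL (prodL [false, true] (List.range (R - 1)))
    (sumL l (prodL (fFL l δ R) (List.range (R + 1))))

variable {n : ℕ} {E : ℕ → ℕ → Bool} {R : ℕ}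

theorem zL_toFinset : (zL n E).toFinset = zF n E := by
  rw [zL, List.toFinset_filter, prodL_toFinset, List.toFinset_range, zF]
  simp only [Bool.and_eq_true, decide_eq_true_eq]

theorem zL_nodup : (zL n E).Nodup := (nodup_prodL List.nodup_range List.nodup_range).filter _

theorem bL_toFinset : (bL n E).toFinset = bS n E := by
  rw [bL, sumL_toFinset, cL_toFinset, zL_toFinset, bS]

theorem bL_nodup : (bL n E).Nodup := nodup_sumL (cL_nodup n) zL_nodup

theorem nL_toFinset {α : Type} [DecidableEq α] (l : List α) (δ : α → ℕ) (R : ℕ) :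
    (nL l δ R).toFinset = nS l.toFinset δ R := by
  have : ([false, true] : List Bool).toFinset = univ := by decide
  rw [nL, prodL_toFinset, prodL_toFinset, sumL_toFinset, prodL_toFinset, fFL_toFinset,
    List.toFinset_range, List.toFinset_range, this, nS]

theorem nL_nodup {α : Type} {l : List α} (hl : l.Nodup) (δ : α → ℕ) (R : ℕ) :
    (nL l δ R).Nodup :=
  nodup_prodL (nodup_prodL (by simp) List.nodup_range)
    (nodup_sumL hl (nodup_prodL (fFL_nodup hl δ R) List.nodup_range))

/-- the missing degrees -/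
def dlB (n : ℕ) (E : ℕ → ℕ → Bool) (R : ℕ) (y : BL) : ℕ := R - dgB n E y

/-- the labels -/
def vsB (n : ℕ) (E : ℕ → ℕ → Bool) (R : ℕ) : List (NL BL) := nL (bL n E) (dlB n E R) R

/-- the threshold -/
def thB (n : ℕ) (E : ℕ → ℕ → Bool) (R m : ℕ) : ℕ :=
  2 * (R - 1) * (((bL n E).length + R * (fFL (bL n E) (dlB n E R) R).length + m) - (n * n + n))

theorem vsB_nodup : (vsB n E R).Nodup := nL_nodup bL_nodup _ _

theorem vsB_toFinset : (vsB n E R).toFinset = nS (bS n E) (dlB n E R) R := by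
  rw [vsB, nL_toFinset, bL_toFinset]

theorem vsB_symm (x y : NL BL) : nT (bT n) x y = nT (bT n) y x := nT_symm bT_symm x y

theorem vsB_irr (hn : 1 ≤ n) (x : NL BL) (hx : x ∈ vsB n E R) : nT (bT n) x x = false := by
  rw [← List.mem_toFinset, vsB_toFinset] at hx
  exact nT_irr (fun x _ => bT_irr hn x) x hx

theorem vsB_reg (hn : 1 ≤ n) (hE : ∀ v w, E v w = E w v) (hR : 3 ≤ R) (x : NL BL)
    (hx : x ∈ vsB n E R) : nb (nT (bT n)) (vsB n E R).toFinset x = R := by
  rw [← List.mem_toFinset] at hx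
  rw [vsB_toFinset] at hx ⊢
  refine nS_reg hR ?_ x hx
  intro y hy
  rw [nb_bT hn hE y hy, dlB]
  have := dgB_le (n := n) (E := E) y
  omega

theorem bS_card_ge : n * n + n + 2 * (n * n) ≤ (bS n E).card := by
  rw [bS, card_disjSum, card_cS]
  have : n * (3 * n + 1) = n * n + n + 2 * (n * n) := by ring
  omega

theorem partB (hn : 1 ≤ n) (hE : ∀ v w, E v w = E w v) (hR : 3 ≤ R) (m : ℕ) :
    RegKMIS (R - 1) (mkA (vsB n E R) (nT (bT n)), thB n E R m) ↔
      ∃ X, Ind n E X ∧ m ≤ X.card := by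
  rw [regKMIS_iff vsB_nodup vsB_symm (vsB_irr hn) (vsB_reg hn hE hR),
    al_iff_dom (vsB_reg hn hE hR |> fun h x hx => h x (List.mem_toFinset.1 hx)) (by omega),
    vsB_toFinset]
  have h1 : (bL n E).length = (bS n E).card := by
    rw [← card_toFinset bL_nodup, bL_toFinset]
  have h2 : (fFL (bL n E) (dlB n E R) R).length = (fF (bS n E) (dlB n E R) R).card := by
    rw [← card_toFinset (fFL_nodup bL_nodup _ _), fFL_toFinset, bL_toFinset]
  have h3 : ∀ d, d + thB n E R m ≤ (nS (bS n E) (dlB n E R) R).card ↔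
      d + 2 * (R - 1) * m ≤ 2 * (R - 1) * ((n * n + n) + (fF (bS n E) (dlB n E R) R).card) := by
    intro d
    rw [nS_card, thB, h1, h2]
    have h4 := bS_card_ge (n := n) (E := E)
    generalize (bS n E).card = s at *
    generalize (fF (bS n E) (dlB n E R) R).card = F at *
    generalize 2 * (R - 1) = c at *
    obtain ⟨e, he⟩ : ∃ e, s + R * F + m = e + (n * n + n) :=
      ⟨s + R * F + m - (n * n + n), by omega⟩
    rw [he, Nat.add_sub_cancel]
    have e1 : c * e + c * (n * n + n) = c * (s + R * F + m) := by rw [he]; ring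
    have e2 : c * (s + R * F + m) = c * s + c * (R * F) + c * m := by ring
    have e3 : c * (s + F * (R + 1)) = c * s + c * (R * F) + c * F := by ring
    have e4 : c * (n * n + n + F) = c * (n * n + n) + c * F := by ring
    omega
  constructor
  · rintro ⟨D, hD, hdom, hc⟩
    obtain ⟨D0, hD0, hdom0, hc0⟩ := neut_ge hR hD hdom ((h3 _).1 hc)
    exact cycB_ge hn hE hdom0 hc0
  · rintro ⟨X, hX, hm⟩
    obtain ⟨D0, hD0, hdom0, hc0⟩ := cycB_le hn hX
    obtain ⟨D, hD, hdom, hc⟩ := neut_le (δ := dlB n E R) (R := R) hD0 hdom0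
    refine ⟨D, hD, hdom, (h3 _).2 ?_⟩
    rw [hc, ← mul_add]
    refine Nat.mul_le_mul le_rfl ?_
    omega

theorem regB (hn : 1 ≤ n) (hE : ∀ v w, E v w = E w v) (hR : 3 ≤ R) :
    IsReg (graph (mkA (vsB n E R) (nT (bT n)))) R :=
  isReg_of vsB_nodup vsB_symm (vsB_irr hn) (vsB_reg hn hE hR)

theorem thB_pos (hn : 1 ≤ n) (hR : 3 ≤ R) (m : ℕ) : 1 ≤ thB n E R m := by
  have h1 : (bL n E).length = (bS n E).card := by
    rw [← card_toFinset bL_nodup, bL_toFinset]
  have h4 := bS_card_ge (n := n) (E := E)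
  have h5 : 1 ≤ n * n := Nat.mul_pos hn hn
  rw [thB, h1]
  refine Nat.mul_pos (by omega) (by omega)

end Pool.Agent.R538.KI
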