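import Mathlib
import Pool.Agent.R538.KI.PartB
import Pool.Agent.H671R2.PolyAuto
import Pool.Agent.H673R2.HardOn

/-!
The reductions are computable in polynomial time.
-/

set_option autoImplicit false

namespace Pool.Agent.R538.KI

open Pool.Agent.NPC Pool.Agent.R550.GB Pool.Agent.R538.MS Pool.Agent.H692R2 Pool.Agent.NPC.R542

section

variable {α β γ : Type} [TEnc α] [TEnc β] [TEnc γ]

theorem poly_prodL {l : α → List β} {m : α → List γ} (hl : NPC.Poly l) (hm : NPC.Poly m) :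
    NPC.Poly (fun a => prodL (l a) (m a)) := by
  unfold prodL
  refine NPC.Poly.flatMap (F := fun (a : α) (b : β) => (m a).map fun c => (b, c)) hl ?_
  refine NPC.Poly.map (F := fun (z : α × β) (c : γ) => (z.2, c))
    (hm.comp (NPC.Poly.fst NPC.Poly.id)) ?_
  fun_prop

theorem poly_sumL {l : α → List β} {m : α → List γ} (hl : NPC.Poly l) (hm : NPC.Poly m) :
    NPC.Poly (fun a => sumL (l a) (m a)) := by
  unfold sumL
  refine NPC.Poly.append ?_ ?_
  · refine NPC.Poly.map (F := fun (_ : α) (c : β) => (Sum.inl c : β ⊕ γ)) hl ?_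
    fun_prop
  · refine NPC.Poly.map (F := fun (_ : α) (c : γ) => (Sum.inr c : β ⊕ γ)) hm ?_
    fun_prop

theorem poly_fFL {l : α → List β} {δ : α → β → ℕ} (hl : NPC.Poly l)
    (hδ : NPC.Poly (fun z : α × β => δ z.1 z.2)) (R : ℕ) :
    NPC.Poly (fun a => fFL (l a) (δ a) R) := by
  unfold fFL
  refine NPC.Poly.filter (p := fun (a : α) (q : β × ℕ) => decide (q.2 < δ a q.1))
    (poly_prodL hl (NPC.Poly.const _)) ?_
  refine NPC.Poly.decide_lt (by fun_prop) ?_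
  exact hδ.comp (f := fun z : α × (β × ℕ) => (z.1, z.2.1)) (by fun_prop)

theorem poly_fL {l : α → List β} {δ : α → β → ℕ} (hl : NPC.Poly l)
    (hδ : NPC.Poly (fun z : α × β => δ z.1 z.2)) (R : ℕ) :
    NPC.Poly (fun a => fL (l a) (δ a) R) := by
  unfold fL
  exact poly_sumL (poly_prodL (NPC.Poly.const _) hl)
    (poly_prodL (poly_fFL hl hδ R) (NPC.Poly.const _))

theorem poly_lL {l : α → List β} (hl : NPC.Poly l) (k : ℕ) :
    NPC.Poly (fun a => lL (l a) k) := poly_prodL hl (NPC.Poly.const _)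

theorem poly_nL {l : α → List β} {δ : α → β → ℕ} (hl : NPC.Poly l)
    (hδ : NPC.Poly (fun z : α × β => δ z.1 z.2)) (R : ℕ) :
    NPC.Poly (fun a => nL (l a) (δ a) R) := by
  unfold nL
  exact poly_prodL (NPC.Poly.const _) (poly_sumL hl (poly_prodL (poly_fFL hl hδ R)
    (NPC.Poly.const _)))

end

section

variable {α β : Type} [TEnc α] [TEnc β] [DecidableEq β] {t : α → β → β → Bool}

theorem poly_pc : NPC.Poly (fun z : Bool × ℕ => pc z.1 z.2) := by
  unfold pc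
  fun_prop

theorem poly_lT (ht : NPC.Poly (fun p : (α × β) × β => t p.1.1 p.1.2 p.2)) :
    NPC.Poly (fun p : (α × (β × ℕ)) × (β × ℕ) => lT (t p.1.1) p.1.2 p.2) := by
  have h1 : NPC.Poly (fun p : (α × (β × ℕ)) × (β × ℕ) => t p.1.1 p.1.2.1 p.2.1) :=
    ht.comp (f := fun p : (α × (β × ℕ)) × (β × ℕ) => ((p.1.1, p.1.2.1), p.2.1)) (by fun_prop)
  unfold lT
  exact NPC.Poly.or (NPC.Poly.and (by fun_prop) (NPC.Poly.and (by fun_prop) h1)) (by fun_prop)

theorem poly_fT (ht : NPC.Poly (fun p : (α × β) × β => t p.1.1 p.1.2 p.2)) :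
    NPC.Poly (fun p : (α × FL β) × FL β => fT (t p.1.1) p.1.2 p.2) := by
  unfold fT
  refine NPC.Poly.sumElim (o := fun p : (α × FL β) × FL β => p.1.2)
    (g := fun p u => Sum.elim (fun p' : Bool × β => decide (u.1 = p'.1) && t p.1.1 u.2 p'.2)
      (fun q' => decide (u.2 = q'.1.1) && pc u.1 q'.2) p.2)
    (h := fun p q => Sum.elim (fun p' : Bool × β => decide (p'.2 = q.1.1) && pc p'.1 q.2)
      (fun q' => decide (q.1 = q'.1) && (decide (q.2 ≠ q'.2) &&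
        !(decide (q.2 < 2) && decide (q'.2 < 2)))) p.2) ?_ ?_ ?_
  · fun_prop
  · refine NPC.Poly.sumElim (o := fun z : ((α × FL β) × FL β) × (Bool × β) => z.1.2)
      (g := fun z p' => decide (z.2.1 = p'.1) && t z.1.1.1 z.2.2 p'.2)
      (h := fun z q' => decide (z.2.2 = q'.1.1) && pc z.2.1 q'.2) ?_ ?_ ?_
    · fun_prop
    · have h1 : NPC.Poly (fun z : (((α × FL β) × FL β) × (Bool × β)) × (Bool × β) =>
          t z.1.1.1.1 z.1.2.2 z.2.2) :=
        ht.comp (f := fun z : (((α × FL β) × FL β) × (Bool × β)) × (Bool × β) =>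
          ((z.1.1.1.1, z.1.2.2), z.2.2)) (by fun_prop)
      exact NPC.Poly.and (by fun_prop) h1
    · have h1 : NPC.Poly (fun z : (((α × FL β) × FL β) × (Bool × β)) × ((β × ℕ) × ℕ) =>
          pc z.1.2.1 z.2.2) :=
        poly_pc.comp (f := fun z : (((α × FL β) × FL β) × (Bool × β)) × ((β × ℕ) × ℕ) =>
          (z.1.2.1, z.2.2)) (by fun_prop)
      exact NPC.Poly.and (by fun_prop) h1
  · refine NPC.Poly.sumElim (o := fun z : ((α × FL β) × FL β) × ((β × ℕ) × ℕ) => z.1.2)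
      (g := fun z p' => decide (p'.2 = z.2.1.1) && pc p'.1 z.2.2)
      (h := fun z q' => decide (z.2.1 = q'.1) && (decide (z.2.2 ≠ q'.2) &&
        !(decide (z.2.2 < 2) && decide (q'.2 < 2)))) ?_ ?_ ?_
    · fun_prop
    · have h1 : NPC.Poly (fun z : (((α × FL β) × FL β) × ((β × ℕ) × ℕ)) × (Bool × β) =>
          pc z.2.1 z.1.2.2) :=
        poly_pc.comp (f := fun z : (((α × FL β) × FL β) × ((β × ℕ) × ℕ)) × (Bool × β) =>
          (z.2.1, z.1.2.2)) (by fun_prop)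
      exact NPC.Poly.and (by fun_prop) h1
    · fun_prop

theorem poly_gb : NPC.Poly (fun z : ((Bool × ℕ) × (Bool × ℕ)) × (ℕ × ℕ) =>
    gb z.1.1 z.1.2 z.2.1 z.2.2) := by
  unfold gb
  fun_prop

theorem poly_nT (ht : NPC.Poly (fun p : (α × β) × β => t p.1.1 p.1.2 p.2)) :
    NPC.Poly (fun p : (α × NL β) × NL β => nT (t p.1.1) p.1.2 p.2) := by
  unfold nT
  refine NPC.Poly.sumElim (o := fun p : (α × NL β) × NL β => p.1.2.2)
    (g := fun p a => Sum.elim (fun a' => decide (p.1.2.1 = p.2.1) && t p.1.1 a a')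
      (fun q' => decide (p.1.2.1 = p.2.1) && (decide (a = q'.1.1) && decide (q'.2 = 0))) p.2.2)
    (h := fun p q => Sum.elim
      (fun a' => decide (p.2.1 = p.1.2.1) && (decide (a' = q.1.1) && decide (q.2 = 0)))
      (fun q' => decide (q.1 = q'.1) && gb p.1.2.1 p.2.1 q.2 q'.2) p.2.2) ?_ ?_ ?_
  · fun_prop
  · refine NPC.Poly.sumElim (o := fun z : ((α × NL β) × NL β) × β => z.1.2.2)
      (g := fun z a' => decide (z.1.1.2.1 = z.1.2.1) && t z.1.1.1 z.2 a')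
      (h := fun z q' => decide (z.1.1.2.1 = z.1.2.1) &&
        (decide (z.2 = q'.1.1) && decide (q'.2 = 0))) ?_ ?_ ?_
    · fun_prop
    · have h1 : NPC.Poly (fun z : (((α × NL β) × NL β) × β) × β =>
          t z.1.1.1.1 z.1.2 z.2) :=
        ht.comp (f := fun z : (((α × NL β) × NL β) × β) × β =>
          ((z.1.1.1.1, z.1.2), z.2)) (by fun_prop)
      exact NPC.Poly.and (by fun_prop) h1
    · fun_prop
  · refine NPC.Poly.sumElim (o := fun z : ((α × NL β) × NL β) × ((β × ℕ) × ℕ) => z.1.2.2)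
      (g := fun z a' => decide (z.1.2.1 = z.1.1.2.1) &&
        (decide (a' = z.2.1.1) && decide (z.2.2 = 0)))
      (h := fun z q' => decide (z.2.1 = q'.1) && gb z.1.1.2.1 z.1.2.1 z.2.2 q'.2) ?_ ?_ ?_
    · fun_prop
    · fun_prop
    · have h1 : NPC.Poly (fun z : (((α × NL β) × NL β) × ((β × ℕ) × ℕ)) × ((β × ℕ) × ℕ) =>
          gb z.1.1.1.2.1 z.1.1.2.1 z.1.2.2 z.2.2) :=
        poly_gb.comp (f := fun z : (((α × NL β) × NL β) × ((β × ℕ) × ℕ)) × ((β × ℕ) × ℕ) =>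
          ((z.1.1.1.2.1, z.1.1.2.1), (z.1.2.2, z.2.2))) (by fun_prop)
      exact NPC.Poly.and (by fun_prop) h1

end

section

theorem poly_eB {α : Type} [TEnc α] {G : α → FinGraph} {i j : α → ℕ} (hG : NPC.Poly G)
    (hi : NPC.Poly i) (hj : NPC.Poly j) : NPC.Poly (fun a => eB (G a) (i a) (j a)) :=
  NPC.Poly.and (poly_adjB hG hi hj) (poly_adjB hG hj hi)

theorem poly_gadT : NPC.Poly (fun z : ℕ × (ℕ × ℕ) => gadT z.1 z.2.1 z.2.2) := by
  unfold gadT cyc
  fun_prop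

theorem poly_cT : NPC.Poly (fun p : (FinGraph × (ℕ × ℕ)) × (ℕ × ℕ) =>
    cT p.1.1.n (eB p.1.1) p.1.2 p.2) := by
  have hn : NPC.Poly (fun p : (FinGraph × (ℕ × ℕ)) × (ℕ × ℕ) => p.1.1.n) :=
    poly_n (NPC.Poly.fst (NPC.Poly.fst NPC.Poly.id))
  have h1 : NPC.Poly (fun p : (FinGraph × (ℕ × ℕ)) × (ℕ × ℕ) => gadT p.1.1.n p.1.2.2 p.2.2) :=
    poly_gadT.comp (f := fun p : (FinGraph × (ℕ × ℕ)) × (ℕ × ℕ) => (p.1.1.n, (p.1.2.2, p.2.2)))
      (by fun_prop)
  have h2 : NPC.Poly (fun p : (FinGraph × (ℕ × ℕ)) × (ℕ × ℕ) => eB p.1.1 p.1.2.1 p.2.1) :=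
    poly_eB (NPC.Poly.fst (NPC.Poly.fst NPC.Poly.id)) (by fun_prop) (by fun_prop)
  unfold cT
  exact NPC.Poly.or (NPC.Poly.and (by fun_prop) h1) (NPC.Poly.and (by fun_prop)
    (NPC.Poly.and h2 (by fun_prop)))

theorem poly_zp : NPC.Poly (fun z : (ℕ × ℕ) × (ℕ × ℕ) => zp z.1 z.2) := by
  unfold zp
  fun_prop

theorem poly_bT : NPC.Poly (fun p : (FinGraph × BL) × BL => bT p.1.1.n p.1.2 p.2) := by
  unfold bT
  refine NPC.Poly.sumElim (o := fun p : (FinGraph × BL) × BL => p.1.2)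
    (g := fun p u => Sum.elim (fun p' : ℕ × ℕ => decide (u.1 = p'.1) && gadT p.1.1.n u.2 p'.2)
      (fun q' => zp u q') p.2)
    (h := fun p q => Sum.elim (fun p' : ℕ × ℕ => zp p' q) (fun _ => false) p.2) ?_ ?_ ?_
  · fun_prop
  · refine NPC.Poly.sumElim (o := fun z : ((FinGraph × BL) × BL) × (ℕ × ℕ) => z.1.2)
      (g := fun z p' => decide (z.2.1 = p'.1) && gadT z.1.1.1.n z.2.2 p'.2)
      (h := fun z q' => zp z.2 q') ?_ ?_ ?_
    · fun_prop
    · have hn : NPC.Poly (fun z : (((FinGraph × BL) × BL) × (ℕ × ℕ)) × (ℕ × ℕ) =>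
          z.1.1.1.1.n) :=
        poly_n (NPC.Poly.fst (NPC.Poly.fst (NPC.Poly.fst (NPC.Poly.fst NPC.Poly.id))))
      have h1 : NPC.Poly (fun z : (((FinGraph × BL) × BL) × (ℕ × ℕ)) × (ℕ × ℕ) =>
          gadT z.1.1.1.1.n z.1.2.2 z.2.2) :=
        poly_gadT.comp (f := fun z : (((FinGraph × BL) × BL) × (ℕ × ℕ)) × (ℕ × ℕ) =>
          (z.1.1.1.1.n, (z.1.2.2, z.2.2))) (by fun_prop)
      exact NPC.Poly.and (by fun_prop) h1
    · exact poly_zp.comp (f := fun z : (((FinGraph × BL) × BL) × (ℕ × ℕ)) × (ℕ × ℕ) =>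
        (z.1.2, z.2)) (by fun_prop)
  · refine NPC.Poly.sumElim (o := fun z : ((FinGraph × BL) × BL) × (ℕ × ℕ) => z.1.2)
      (g := fun z p' => zp p' z.2) (h := fun _ _ => false) ?_ ?_ ?_
    · fun_prop
    · exact poly_zp.comp (f := fun z : (((FinGraph × BL) × BL) × (ℕ × ℕ)) × (ℕ × ℕ) =>
        (z.2, z.1.2)) (by fun_prop)
    · fun_prop

theorem poly_dgA : NPC.Poly (fun z : FinGraph × (ℕ × ℕ) => dgA z.1.n (eB z.1) z.2) := by
  have hn : NPC.Poly (fun z : FinGraph × (ℕ × ℕ) => z.1.n) := poly_n (NPC.Poly.fst NPC.Poly.id)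
  have h2 : NPC.Poly (fun z : FinGraph × (ℕ × ℕ) => eB z.1 z.2.1 (z.2.2 / 3)) :=
    poly_eB (NPC.Poly.fst NPC.Poly.id) (by fun_prop) (by fun_prop)
  unfold dgA
  fun_prop

theorem poly_cL {α : Type} [TEnc α] {G : α → FinGraph} (hG : NPC.Poly G) :
    NPC.Poly (fun a => cL (G a).n) := by
  unfold cL
  exact poly_prodL (upoly_n hG).range
    (((UPoly.const 3).mul (upoly_n hG)).add (UPoly.const 1)).range

end

end Pool.Agent.R538.KI
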