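import Mathlib
import Pool.Agent.R538.KI.Comp

/-!
Hardness on regular graphs.
-/

set_option autoImplicit false

namespace Pool.Agent.R538.KI

open Pool.Agent.NPC Pool.Agent.R550.GB Pool.Agent.R538.MS Pool.Agent.H692R2 Pool.Agent.NPC.R542

theorem poly_dlA (k R : ℕ) :
    NPC.Poly (fun z : FinGraph × ((ℕ × ℕ) × ℕ) => dlA z.1.n (eB z.1) k R z.2) := by
  have h1 : NPC.Poly (fun z : FinGraph × ((ℕ × ℕ) × ℕ) => dgA z.1.n (eB z.1) z.2.1) :=
    poly_dgA.comp (f := fun z : FinGraph × ((ℕ × ℕ) × ℕ) => (z.1, z.2.1)) (by fun_prop)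
  unfold dlA
  fun_prop

theorem poly_dlB (R : ℕ) : NPC.Poly (fun z : FinGraph × BL => dlB z.1.n (eB z.1) R z.2) := by
  unfold dlB dgB
  refine NPC.Poly.sub (NPC.Poly.const _) ?_
  refine NPC.Poly.sumElim (o := fun z : FinGraph × BL => z.2)
    (g := fun z p => dgA z.1.n (eB z.1) p) (h := fun _ _ => 2) ?_ ?_ ?_
  · fun_prop
  · exact poly_dgA.comp (f := fun z : (FinGraph × BL) × (ℕ × ℕ) => (z.1.1, z.2)) (by fun_prop)
  · fun_prop

theorem poly_zL : NPC.Poly (fun G : FinGraph => zL G.n (eB G)) := by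
  unfold zL
  refine NPC.Poly.filter (p := fun (G : FinGraph) (p : ℕ × ℕ) =>
    decide (p.1 < p.2) && eB G p.1 p.2)
    (poly_prodL (upoly_n NPC.Poly.id).range (upoly_n NPC.Poly.id).range) ?_
  exact NPC.Poly.and (by fun_prop) (poly_eB (NPC.Poly.fst NPC.Poly.id) (by fun_prop)
    (by fun_prop))

theorem poly_bL : NPC.Poly (fun G : FinGraph => bL G.n (eB G)) := by
  unfold bL
  exact poly_sumL (poly_cL NPC.Poly.id) poly_zL

theorem poly_vsA (k R : ℕ) : NPC.Poly (fun G : FinGraph => vsA G.n (eB G) k R) := by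
  unfold vsA
  exact poly_fL (poly_lL (poly_cL NPC.Poly.id) k) (poly_dlA k R) R

theorem poly_vsB (R : ℕ) : NPC.Poly (fun G : FinGraph => vsB G.n (eB G) R) := by
  unfold vsB
  exact poly_nL poly_bL (poly_dlB R) R

/-- the first reduction -/
noncomputable def redA (k R : ℕ) (I : FinGraph × ℕ) : List (List ℕ) × ℕ :=
  (mkA (vsA I.1.n (eB I.1) k R) (fT (lT (cT I.1.n (eB I.1)))), thA I.1.n (eB I.1) k R I.2)

/-- the second reduction -/
noncomputable def redB (R : ℕ) (I : FinGraph × ℕ) : List (List ℕ) × ℕ :=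
  (mkA (vsB I.1.n (eB I.1) R) (nT (bT I.1.n)), thB I.1.n (eB I.1) R I.2)

theorem poly_mk {β : Type} [TEnc β] {vs : FinGraph → List β} {t : FinGraph → β → β → Bool}
    (hvs : NPC.Poly vs) (ht : NPC.Poly (fun p : (FinGraph × β) × β => t p.1.1 p.1.2 p.2)) :
    NPC.Poly (fun I : FinGraph × ℕ => mkA (vs I.1) (t I.1)) :=
  (poly_mkA hvs ht).comp (NPC.Poly.fst NPC.Poly.id)

/-- the number of the cliques -/
noncomputable def cntA (k R : ℕ) (G : FinGraph) : ℕ :=
  (fFL (lL (cL G.n) k) (dlA G.n (eB G) k R) R).length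

/-- the number of the blocks -/
noncomputable def cntB (R : ℕ) (G : FinGraph) : ℕ :=
  (fFL (bL G.n (eB G)) (dlB G.n (eB G) R) R).length

/-- the number of the labels -/
noncomputable def cntC (G : FinGraph) : ℕ := (bL G.n (eB G)).length

theorem poly_cntA (k R : ℕ) : NPC.Poly (cntA k R) := by
  unfold cntA
  exact NPC.Poly.length (poly_fFL (poly_lL (poly_cL NPC.Poly.id) k) (poly_dlA k R) R)

theorem poly_cntB (R : ℕ) : NPC.Poly (cntB R) := by
  unfold cntB
  exact NPC.Poly.length (poly_fFL poly_bL (poly_dlB R) R)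

theorem poly_cntC : NPC.Poly cntC := by
  unfold cntC
  exact NPC.Poly.length poly_bL

theorem poly_thA (k R : ℕ) :
    NPC.Poly (fun I : FinGraph × ℕ => thA I.1.n (eB I.1) k R I.2) := by
  have hn : NPC.Poly (fun I : FinGraph × ℕ => I.1.n) := poly_n (NPC.Poly.fst NPC.Poly.id)
  have h1 : NPC.Poly (fun I : FinGraph × ℕ => cntA k R I.1) :=
    (poly_cntA k R).comp (f := fun I : FinGraph × ℕ => I.1) (NPC.Poly.fst NPC.Poly.id)
  change NPC.Poly (fun I : FinGraph × ℕ =>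
    2 * ((k - 1) * (I.1.n * (3 * I.1.n + 1)) + (2 * I.1.n * I.1.n + I.2)) +
      (k + 1) * cntA k R I.1)
  fun_prop

theorem poly_thB (R : ℕ) :
    NPC.Poly (fun I : FinGraph × ℕ => thB I.1.n (eB I.1) R I.2) := by
  have hn : NPC.Poly (fun I : FinGraph × ℕ => I.1.n) := poly_n (NPC.Poly.fst NPC.Poly.id)
  have h1 : NPC.Poly (fun I : FinGraph × ℕ => cntB R I.1) :=
    (poly_cntB R).comp (f := fun I : FinGraph × ℕ => I.1) (NPC.Poly.fst NPC.Poly.id)
  have h2 : NPC.Poly (fun I : FinGraph × ℕ => cntC I.1) :=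
    poly_cntC.comp (f := fun I : FinGraph × ℕ => I.1) (NPC.Poly.fst NPC.Poly.id)
  change NPC.Poly (fun I : FinGraph × ℕ =>
    2 * (R - 1) * ((cntC I.1 + R * cntB R I.1 + I.2) - (I.1.n * I.1.n + I.1.n)))
  fun_prop

theorem poly_redA (k R : ℕ) : NPC.Poly (redA k R) := by
  unfold redA
  refine NPC.Poly.pair ?_ (poly_thA k R)
  refine poly_mk (vs := fun G => vsA G.n (eB G) k R)
    (t := fun G => fT (lT (cT G.n (eB G)))) (poly_vsA k R) ?_
  exact poly_fT (t := fun G : FinGraph => lT (cT G.n (eB G)))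
    (poly_lT (t := fun G : FinGraph => cT G.n (eB G)) poly_cT)

theorem poly_redB (R : ℕ) : NPC.Poly (redB R) := by
  unfold redB
  refine NPC.Poly.pair ?_ (poly_thB R)
  refine poly_mk (vs := fun G => vsB G.n (eB G) R)
    (t := fun G => nT (bT G.n)) (poly_vsB R) ?_
  exact poly_nT (t := fun G : FinGraph => bT G.n) poly_bT

/-- **Hardness.** -/
theorem hard (k r : ℕ) (hk : 1 ≤ k) (hr3 : 3 ≤ r) (hr : k + 1 ≤ r) :
    Pool.Agent.H673R2.NPHardOn
      (fun I : List (List ℕ) × ℕ => IsReg (graph I.1) r ∧ 1 ≤ I.2) (RegKMIS k) := by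
  rcases Nat.lt_or_ge r (k + 2) with h | h
  · have hk' : k = r - 1 := by omega
    subst hk'
    refine Pool.Agent.H673R2.npHardOn_of Pool.Agent.R553.SW.hardPr_indep_pos (poly_redB r)
      (fun I hI => ⟨regB hI (eB_symm I.1) hr3, thB_pos hI hr3 I.2⟩) (fun I hI => ?_)
    rw [hasIndep_iff]
    exact (partB hI (eB_symm I.1) hr3 I.2).symm
  · refine Pool.Agent.H673R2.npHardOn_of Pool.Agent.R553.SW.hardPr_indep_pos (poly_redA k r)
      (fun I hI => ⟨regA hI (eB_symm I.1) hk h, thA_pos hI I.2⟩) (fun I hI => ?_)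
    rw [hasIndep_iff]
    exact (partA hI (eB_symm I.1) hk h I.2).symm

end Pool.Agent.R538.KI
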