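import Mathlib
import Pool.Agent.R538.KI.Final
import Pool.Agent.R538.MS.CompA

/-!
Membership in NP.
-/

set_option autoImplicit false

namespace Pool.Agent.R538.KI

open Finset Pool.Agent.NPC Pool.Agent.R550.GB Pool.Agent.R538.MS

/-- adjacency test -/
def adG (A : List (List ℕ)) (u v : ℕ) : Bool :=
  !decide (u = v) && (decide (v ∈ A.getD u []) || decide (u ∈ A.getD v []))

theorem adG_iff {A : List (List ℕ)} {u v : Fin A.length} :
    adG A u v = true ↔ (graph A).Adj u v := by
  rw [graph_adj, adG]
  simp [Fin.ext_iff]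

/-- counting -/
theorem cnt_eq (n : ℕ) (P : ℕ → Bool) :
    ((List.range n).filter P).length = {u : Fin n | P u = true}.ncard := by
  classical
  have h1 : {u : Fin n | P u = true} = ((univ.filter fun u : Fin n => P u = true : Finset _) :
      Set (Fin n)) := by
    ext u
    simp
  rw [h1, Set.ncard_coe_finset, ← card_image_of_injective _ Fin.val_injective,
    ← List.toFinset_card_of_nodup (List.nodup_range.filter _)]
  congr 1
  ext x
  simp only [List.toFinset_filter, List.toFinset_range, mem_filter, mem_range, mem_image, mem_univ,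
    true_and]
  constructor
  · rintro ⟨h1, h2⟩
    exact ⟨⟨x, h1⟩, h2, rfl⟩
  · rintro ⟨u, hu, rfl⟩
    exact ⟨u.2, hu⟩

/-- the verifier -/
def ver (k r : ℕ) (z : (List (List ℕ) × ℕ) × List ℕ) : Bool :=
  ((List.range z.1.1.length).all fun v =>
    decide (((List.range z.1.1.length).filter fun u => adG z.1.1 v u).length = r)) &&
  (decide (1 ≤ z.1.2) &&
  (decide (z.1.2 ≤ ((List.range z.1.1.length).filter fun u => decide (u ∈ z.2)).length) &&
  ((List.range z.1.1.length).all fun v => !decide (v ∈ z.2) ||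
    decide (((List.range z.1.1.length).filter fun u =>
      decide (u ∈ z.2) && adG z.1.1 v u).length ≤ k))))

theorem poly_adG {α : Type} [TEnc α] {A : α → List (List ℕ)} {u v : α → ℕ} (hA : NPC.Poly A)
    (hu : NPC.Poly u) (hv : NPC.Poly v) : NPC.Poly (fun a => adG (A a) (u a) (v a)) := by
  unfold adG
  fun_prop

theorem poly_ver (k r : ℕ) : NPC.Poly (ver k r) := by
  have h0 : NPC.Poly (fun z : (List (List ℕ) × ℕ) × List ℕ => List.range z.1.1.length) :=
    (UPoly.length (NPC.Poly.fst (NPC.Poly.fst NPC.Poly.id))).range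
  have h1 : NPC.Poly (fun z : ((List (List ℕ) × ℕ) × List ℕ) × ℕ =>
      List.range z.1.1.1.length) := h0.comp (NPC.Poly.fst NPC.Poly.id)
  have e1 : NPC.Poly (fun z : ((List (List ℕ) × ℕ) × List ℕ) × ℕ =>
      ((List.range z.1.1.1.length).filter fun u => adG z.1.1.1 z.2 u).length) := by
    refine NPC.Poly.length ?_
    refine NPC.Poly.filter (p := fun (z : ((List (List ℕ) × ℕ) × List ℕ) × ℕ) u =>
      adG z.1.1.1 z.2 u) h1 ?_
    exact poly_adG (by fun_prop) (by fun_prop) (by fun_prop)
  have e2 : NPC.Poly (fun z : ((List (List ℕ) × ℕ) × List ℕ) × ℕ =>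
      ((List.range z.1.1.1.length).filter fun u =>
        decide (u ∈ z.1.2) && adG z.1.1.1 z.2 u).length) := by
    refine NPC.Poly.length ?_
    refine NPC.Poly.filter (p := fun (z : ((List (List ℕ) × ℕ) × List ℕ) × ℕ) u =>
      decide (u ∈ z.1.2) && adG z.1.1.1 z.2 u) h1 ?_
    refine NPC.Poly.and (by fun_prop) ?_
    exact poly_adG (by fun_prop) (by fun_prop) (by fun_prop)
  have f1 : NPC.Poly (fun z : (List (List ℕ) × ℕ) × List ℕ =>
      (List.range z.1.1.length).all fun v =>
        decide (((List.range z.1.1.length).filter fun u => adG z.1.1 v u).length = r)) := by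
    refine NPC.Poly.all (p := fun (z : (List (List ℕ) × ℕ) × List ℕ) v =>
      decide (((List.range z.1.1.length).filter fun u => adG z.1.1 v u).length = r)) h0 ?_
    exact NPC.Poly.decide_eq e1 (NPC.Poly.const _)
  have f2 : NPC.Poly (fun z : (List (List ℕ) × ℕ) × List ℕ =>
      (List.range z.1.1.length).all fun v => !decide (v ∈ z.2) ||
        decide (((List.range z.1.1.length).filter fun u =>
          decide (u ∈ z.2) && adG z.1.1 v u).length ≤ k)) := by
    refine NPC.Poly.all (p := fun (z : (List (List ℕ) × ℕ) × List ℕ) v => !decide (v ∈ z.2) ||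
      decide (((List.range z.1.1.length).filter fun u =>
        decide (u ∈ z.2) && adG z.1.1 v u).length ≤ k)) h0 ?_
    exact NPC.Poly.or (by fun_prop) (NPC.Poly.decide_le e2 (NPC.Poly.const _))
  have f3 : NPC.Poly (fun z : (List (List ℕ) × ℕ) × List ℕ =>
      decide (z.1.2 ≤ ((List.range z.1.1.length).filter fun u => decide (u ∈ z.2)).length)) := by
    refine NPC.Poly.decide_le (by fun_prop) (NPC.Poly.length ?_)
    refine NPC.Poly.filter (p := fun (z : (List (List ℕ) × ℕ) × List ℕ) u =>
      decide (u ∈ z.2)) h0 ?_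
    fun_prop
  unfold ver
  exact NPC.Poly.and f1 (NPC.Poly.and (by fun_prop) (NPC.Poly.and f3 f2))

theorem isReg_iff {A : List (List ℕ)} {r : ℕ} : IsReg (graph A) r ↔
    ∀ v < A.length, ((List.range A.length).filter fun u => adG A v u).length = r := by
  have key : ∀ v : Fin A.length, ((List.range A.length).filter fun u => adG A v u).length =
      ((graph A).neighborSet v).ncard := by
    intro v
    rw [cnt_eq]
    congr 1
    ext u
    exact adG_iff
  constructor
  · intro h v hv
    rw [← h ⟨v, hv⟩]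
    exact key ⟨v, hv⟩
  · intro h v
    rw [← key v]
    exact h v v.2

theorem ver_iff (k r : ℕ) (I : List (List ℕ) × ℕ) (W : List ℕ) : ver k r (I, W) = true ↔
    (IsReg (graph I.1) r ∧ 1 ≤ I.2) ∧
      I.2 ≤ (univ.filter fun u : Fin I.1.length => (u : ℕ) ∈ W).card ∧
      ∀ v ∈ univ.filter fun u : Fin I.1.length => (u : ℕ) ∈ W,
        {u | u ∈ (univ.filter fun u : Fin I.1.length => (u : ℕ) ∈ W) ∧
          (graph I.1).Adj v u}.ncard ≤ k := by
  unfold ver
  rw [Bool.and_eq_true, Bool.and_eq_true, Bool.and_eq_true, List.all_eq_true, List.all_eq_true,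
    decide_eq_true_eq, decide_eq_true_eq, isReg_iff]
  simp only [List.mem_range, decide_eq_true_eq, Bool.or_eq_true, Bool.not_eq_true',
    decide_eq_false_iff_not]
  have h1 : ((List.range I.1.length).filter fun u => decide (u ∈ W)).length =
      (univ.filter fun u : Fin I.1.length => (u : ℕ) ∈ W).card := by
    rw [cnt_eq, ← Set.ncard_coe_finset]
    congr 1
    ext u
    simp
  have h2 : ∀ v : Fin I.1.length, ((List.range I.1.length).filter fun u =>
      decide (u ∈ W) && adG I.1 v u).length =
      {u | u ∈ (univ.filter fun u : Fin I.1.length => (u : ℕ) ∈ W) ∧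
        (graph I.1).Adj v u}.ncard := by
    intro v
    rw [cnt_eq]
    congr 1
    ext u
    simp only [Set.mem_ofPred_eq, Bool.and_eq_true, decide_eq_true_eq, adG_iff, mem_filter,
      mem_univ, true_and]
  rw [h1]
  constructor
  · rintro ⟨a, b, c, d⟩
    refine ⟨⟨a, b⟩, c, ?_⟩
    intro v hv
    rw [← h2 v]
    exact (d v v.2).resolve_left (fun h => h (mem_filter.1 hv).2)
  · rintro ⟨⟨a, b⟩, c, d⟩
    refine ⟨a, b, c, ?_⟩
    intro v hv
    by_cases hvW : v ∈ W
    · right
      have := d ⟨v, hv⟩ (mem_filter.2 ⟨mem_univ _, hvW⟩)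
      rw [← h2] at this
      exact this
    · exact Or.inl hvW

/-- the problem with the inputs limited to `r`-regular graphs is in NP -/
theorem inNP (k r : ℕ) : InNPP (fun I : List (List ℕ) × ℕ =>
    (IsReg (graph I.1) r ∧ 1 ≤ I.2) ∧ RegKMIS k I) := by
  have h1 : NPC.Poly (fun I : List (List ℕ) × ℕ => List.range I.1.length) :=
    (UPoly.length (NPC.Poly.fst NPC.Poly.id)).range
  obtain ⟨q, hq⟩ := h1.sz_le
  refine inNPP_of (poly_ver k r) q ?_
  intro I
  constructor
  · rintro ⟨hI, S, ⟨hS, -⟩, hp⟩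
    classical
    set W : List ℕ := (List.range I.1.length).filter fun u => decide (∃ v ∈ S, (v : ℕ) = u) with hW
    have hmem : ∀ v : Fin I.1.length, (v : ℕ) ∈ W ↔ v ∈ S := by
      intro v
      rw [hW, List.mem_filter, List.mem_range, decide_eq_true_eq]
      constructor
      · rintro ⟨-, u, hu, huv⟩
        rw [← Fin.ext huv]
        exact hu
      · intro h
        exact ⟨v.2, v, h, rfl⟩
    have hSW : (univ.filter fun u : Fin I.1.length => (u : ℕ) ∈ W) = S := by
      ext v
      rw [mem_filter, hmem]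
      simp
    refine ⟨W, (sz_sublist List.filter_sublist).trans (hq I), (ver_iff k r I W).2 ⟨hI, ?_⟩⟩
    rw [hSW]
    exact ⟨hp, hS⟩
  · rintro ⟨W, -, hW⟩
    rw [ver_iff] at hW
    obtain ⟨hI, hp, hS⟩ := hW
    refine ⟨hI, _, ⟨hS, ?_⟩, hp⟩
    intro u _ v _
    rw [hI.1 u, hI.1 v]

end Pool.Agent.R538.KI
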